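import Pool.Agent.H20.K2.TIQ
import Pool.Agent.H28.KVA.PIN
import Pool.Agent.H73.KAF.RST

/-!
# Types of lines by adapted labels

`b` is a macro context, `L` a line, `T` an exact time, `V i` the nested windows of the time, `φ i` a
real function of `(b, T)`. There are binary labels, revealed one per level and only at bad values of
the context, such that at all but few levels the law of `φ i` given the line and given the context
with the labels agree in the Kolmogorov-Smirnov distance, for most lines. The number of bad levels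
and the entropy of the labels are bounded by the mutual information of the line and the time.
-/

set_option autoImplicit false

namespace Pool.LJ

open Finset Real
open Pool.Agent.H49.Ent Pool.Agent.H32.Dense Pool.STK Pool.KAF Pool.KAL Pool.KX

namespace TYP

variable {Ω Λ γ S : Type} [Fintype Ω]

/-! ### One law -/

/-- Averages of a function of the label times conditional probabilities. -/
theorem avg_pc {q : Ω → ℝ} (hq : ∀ ω, 0 ≤ q ω) (L : Ω → Λ) (g : Λ → ℝ) (E : Set Ω)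
    [DecidablePred (· ∈ E)] :
    ∑ ω, q ω * (g (L ω) * Pr (cond q L (L ω)) E) = ∑ ω, q ω * (g (L ω) * if ω ∈ E then 1 else 0) := by
  have h := HBL.tower hq L g (fun ω => if ω ∈ E then 1 else 0)
  unfold Ex at h
  rw [← h]
  refine Finset.sum_congr rfl fun ω _ => ?_
  congr 2
  rw [Pr_eq]
  refine Finset.sum_congr rfl fun v _ => ?_
  by_cases hv : v ∈ E <;> simp [hv]

theorem Pr_eq_mul {q : Ω → ℝ} (E : Set Ω) [DecidablePred (· ∈ E)] :
    Pr q E = ∑ ω, q ω * if ω ∈ E then 1 else 0 := by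
  rw [Pr_eq]
  refine Finset.sum_congr rfl fun v _ => ?_
  by_cases hv : v ∈ E <;> simp [hv]

/-- Pinsker for two events. -/
theorem pin2 {q : Ω → ℝ} (hq : IsLaw q) (A E : Set Ω) :
    |Pr q (A ∩ E) - Pr q A * Pr q E| ≤ 2 * Real.sqrt (H q (fun ω => ω ∈ A) + H q (fun ω => ω ∈ E) -
      H q (fun ω => (ω ∈ A, ω ∈ E))) := by
  classical
  have h := Pool.KVA.pinsker q (fun ω => ω ∈ A) (fun ω => ω ∈ E) hq.nonneg hq.sum_one
  refine le_trans ?_ h
  have e1 : law q (fun ω => (ω ∈ A, ω ∈ E)) (True, True) = Pr q (A ∩ E) := by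
    unfold Pr law
    refine Finset.sum_congr rfl fun ω _ => ?_
    by_cases h1 : ω ∈ A <;> by_cases h2 : ω ∈ E <;> simp [h1, h2]
  by_cases h1 : (True, True) ∈ (univ.image fun ω => ω ∈ A) ×ˢ (univ.image fun ω => ω ∈ E)
  · have h2 := Finset.single_le_sum (f := fun g : Prop × Prop =>
      |law q (fun ω => (ω ∈ A, ω ∈ E)) g - law q (fun ω => ω ∈ A) g.1 *
        law q (fun ω => ω ∈ E) g.2|) (fun _ _ => abs_nonneg _) h1
    refine le_trans (le_of_eq ?_) h2
    simp only
    rw [e1]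
    rfl
  · have h3 : Pr q (A ∩ E) = 0 ∧ Pr q A * Pr q E = 0 := by
      rw [Finset.mem_product, not_and_or] at h1
      rcases h1 with h1 | h1
      · have e2 : Pr q A = 0 := law_eq_zero_of_notMem q _ h1
        refine ⟨?_, by rw [e2, zero_mul]⟩
        exact le_antisymm (e2 ▸ Pr_mono hq.nonneg fun ω _ hω => hω.1) (Pr_nonneg hq.nonneg _)
      · have e2 : Pr q E = 0 := law_eq_zero_of_notMem q _ h1
        refine ⟨?_, by rw [e2, mul_zero]⟩
        exact le_antisymm (e2 ▸ Pr_mono hq.nonneg fun ω _ hω => hω.2) (Pr_nonneg hq.nonneg _)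
    rw [h3.1, h3.2, sub_zero, abs_zero]
    exact Finset.sum_nonneg fun _ _ => abs_nonneg _

/-- Data processing for the mutual information. -/
theorem mi_mono {q : Ω → ℝ} (hq : ∀ ω, 0 ≤ q ω) {S₁ S₂ S₃ : Type} {X : Ω → S₁} {e : Ω → S₂}
    (he : Det q X e) (Z : Ω → S₃) :
    H q e + H q Z - H q (fun ω => (Z ω, e ω)) ≤ H q X - CH q X Z := by
  have h1 : H q X = H q (fun ω => (X ω, e ω)) :=
    H_congr hq (fun ω ω' _ _ h => (Prod.ext_iff.mp h).1)
      (fun ω ω' a b h => Prod.ext h (he ω ω' a b h))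
  have h2 : CH q X Z = CH q (fun ω => (X ω, e ω)) Z :=
    CH_congr hq (fun ω ω' a b h => by
        have h' := (Prod.ext_iff.mp h).1
        exact Prod.ext h' (he ω ω' a b h'))
      (fun ω ω' _ _ h => (Prod.ext_iff.mp (Prod.ext_iff.mp h).1).1)
      (fun _ _ _ _ h => h) (fun _ _ _ _ h => h)
  have h3 := CH_chain hq X e Z
  have h4 : H q (fun ω => (X ω, e ω)) = H q e + CH q X e := by
    unfold CH
    ring
  have h5 : CH q X (fun ω => (e ω, Z ω)) ≤ CH q X e :=
    CH_mono_cond hq (fun ω ω' _ _ h => (Prod.ext_iff.mp h).1)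
  have h6 : CH q e Z = H q (fun ω => (Z ω, e ω)) - H q Z := by
    unfold CH
    congr 1
    refine H_congr hq ?_ ?_ <;>
    · intro ω ω' _ _ h
      simp only [Prod.mk.injEq] at h ⊢
      tauto
  linarith

theorem bool_of_eq {x y : Bool} (h : (x = true) = (y = true)) : x = y := by
  cases x <;> cases y <;> simp_all

/-- A set of labels on which an event of `φ` is too frequent carries information. -/
theorem gain {q : Ω → ℝ} (hq : IsLaw q) (L : Ω → Λ) {S₁ : Type} (X : Ω → S₁) (E : Set Ω)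
    (hE : Det q X (fun ω => ω ∈ E)) (z : Λ → Bool) {κ : ℝ} {s : ℝ} (hs : s = 1 ∨ s = -1)
    (h : ∀ ω, z (L ω) = true → κ ≤ s * (Pr (cond q L (L ω)) E - Pr q E)) (hκ : 0 ≤ κ) :
    (κ * Pr q {ω | z (L ω) = true} / 2) ^ 2 ≤ H q X - CH q X (fun ω => z (L ω)) := by
  classical
  set A : Set Ω := {ω | z (L ω) = true} with hA
  have h1 : Pr q (A ∩ E) = ∑ ω, q ω * ((if z (L ω) = true then 1 else 0) *
      Pr (cond q L (L ω)) E) := by
    rw [avg_pc hq.nonneg L (fun l => if z l = true then 1 else 0) E, Pr_eq_mul]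
    refine Finset.sum_congr rfl fun ω _ => ?_
    by_cases h1 : z (L ω) = true <;> by_cases h2 : ω ∈ E <;> simp [hA, h1, h2]
  have h2 : Pr q A = ∑ ω, q ω * (if z (L ω) = true then 1 else 0) := by
    rw [Pr_eq_mul]
    refine Finset.sum_congr rfl fun ω _ => ?_
    by_cases h1 : z (L ω) = true <;> simp [hA, h1]
  have h3 : κ * Pr q A ≤ s * (Pr q (A ∩ E) - Pr q A * Pr q E) := by
    rw [h1, h2, Finset.mul_sum, Finset.sum_mul, ← Finset.sum_sub_distrib, Finset.mul_sum]
    refine Finset.sum_le_sum fun ω _ => ?_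
    by_cases h4 : z (L ω) = true
    · rw [if_pos h4]
      have h5 := mul_le_mul_of_nonneg_left (h ω h4) (hq.nonneg ω)
      nlinarith [h5]
    · rw [if_neg h4]
      simp
  have h4 : κ * Pr q A ≤ |Pr q (A ∩ E) - Pr q A * Pr q E| := by
    refine h3.trans ?_
    rcases hs with rfl | rfl
    · rw [one_mul]
      exact le_abs_self _
    · rw [neg_one_mul]
      exact neg_le_abs _
  have h5 := h4.trans (pin2 hq A E)
  have h6 : H q (fun ω => ω ∈ A) + H q (fun ω => ω ∈ E) - H q (fun ω => (ω ∈ A, ω ∈ E)) ≤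
      H q X - CH q X (fun ω => z (L ω)) := by
    have h7 := mi_mono hq.nonneg hE (fun ω => z (L ω))
    have e1 : H q (fun ω => ω ∈ A) = H q (fun ω => z (L ω)) :=
      H_congr hq.nonneg (fun ω ω' _ _ h => by
          show (z (L ω) = true) = (z (L ω') = true)
          rw [show z (L ω) = z (L ω') from h])
        (fun ω ω' _ _ h => bool_of_eq h)
    have e2 : H q (fun ω => (ω ∈ A, ω ∈ E)) = H q (fun ω => (z (L ω), ω ∈ E)) :=
      H_congr hq.nonneg (fun ω ω' _ _ h => by
          have h0 := Prod.ext_iff.mp h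
          refine Prod.ext ?_ h0.2
          show (z (L ω) = true) = (z (L ω') = true)
          rw [show z (L ω) = z (L ω') from h0.1])
        (fun ω ω' _ _ h => Prod.ext (bool_of_eq (Prod.ext_iff.mp h).1) (Prod.ext_iff.mp h).2)
    rw [e1, e2]
    linarith
  have h7 : 0 ≤ κ * Pr q A := mul_nonneg hκ (Pr_nonneg hq.nonneg _)
  set I := H q (fun ω => ω ∈ A) + H q (fun ω => ω ∈ E) - H q (fun ω => (ω ∈ A, ω ∈ E)) with hI
  have h8 : κ * Pr q A / 2 ≤ Real.sqrt I := by linarith
  refine le_trans ?_ h6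
  by_cases hI0 : 0 ≤ I
  · calc (κ * Pr q A / 2) ^ 2 ≤ Real.sqrt I ^ 2 := pow_le_pow_left₀ (by linarith) h8 2
      _ = I := Real.sq_sqrt hI0
  · exfalso
    have h9 := subadd hq.nonneg hq.sum_one (X := fun ω => ω ∈ A) (Y := fun ω => ω ∈ E)
      (W := fun ω => (ω ∈ A, ω ∈ E)) (fun _ _ _ _ h => h)
    exact hI0 (by rw [hI]; linarith)

theorem Pr_add {q : Ω → ℝ} {E F G : Set Ω} (h : ∀ ω, (ω ∈ G ↔ ω ∈ E ∨ ω ∈ F) ∧ ¬(ω ∈ E ∧ ω ∈ F)) :
    Pr q G = Pr q E + Pr q F := by
  classical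
  rw [Pr_eq, Pr_eq, Pr_eq, ← Finset.sum_add_distrib]
  refine Finset.sum_congr rfl fun ω _ => ?_
  obtain ⟨h1, h2⟩ := h ω
  by_cases hE : ω ∈ E <;> by_cases hF : ω ∈ F <;> simp_all

theorem Pr_univ {q : Ω → ℝ} (hq : IsLaw q) : Pr q Set.univ = 1 := by
  classical
  rw [Pr_eq, ← hq.sum_one]
  exact Finset.sum_congr rfl fun ω _ => by simp

/-- A discrepancy of the distribution functions at one point is visible at a set of values of
positive proportion. -/
theorem ks_pt {q μ : Ω → ℝ} (hq : IsLaw q) (hμ : IsLaw μ) (φ : Ω → ℝ) {η x : ℝ} (h0 : 0 < η)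
    (hx : η < |Pr μ {v | φ v ≤ x} - Pr q {v | φ v ≤ x}|) :
    η / 2 ≤ Pr q {w | η / 2 < Pr μ {v | φ v < φ w} - Pr q {v | φ v < φ w} ∨
      η / 2 < Pr q {v | φ v ≤ φ w} - Pr μ {v | φ v ≤ φ w}} := by
  classical
  rcases lt_abs.mp hx with hx | hx
  · set U := univ.filter fun w => x < φ w ∧ Pr q {v | φ v ≤ x} + η / 2 < Pr q {v | φ v < φ w}
      with hU
    have hD : ∀ w, x < φ w → Pr q {v | φ v < φ w} ≤ Pr q {v | φ v ≤ x} + η / 2 →
        η / 2 < Pr μ {v | φ v < φ w} - Pr q {v | φ v < φ w} := by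
      intro w h1 h2
      have h3 : Pr μ {v | φ v ≤ x} ≤ Pr μ {v | φ v < φ w} :=
        Pr_mono hμ.nonneg fun v _ hv => lt_of_le_of_lt hv h1
      linarith
    rcases U.eq_empty_or_nonempty with hU0 | hU0
    · have h1 : Pr q Set.univ = Pr q {v | φ v ≤ x} + Pr q {v | x < φ v} :=
        Pr_add fun v => ⟨by simp [le_or_gt], fun h =>
          (not_le.mpr (show x < φ v from h.2)) (show φ v ≤ x from h.1)⟩
      have h2 : Pr q {v | x < φ v} ≤ Pr q {w | η / 2 < Pr μ {v | φ v < φ w} -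
          Pr q {v | φ v < φ w} ∨ η / 2 < Pr q {v | φ v ≤ φ w} - Pr μ {v | φ v ≤ φ w}} := by
        refine Pr_mono hq.nonneg fun w _ hw => Or.inl (hD w hw ?_)
        by_contra h3
        have h4 : w ∈ U := Finset.mem_filter.mpr ⟨Finset.mem_univ _, hw, not_le.mp h3⟩
        rw [hU0] at h4
        exact absurd h4 (Finset.notMem_empty _)
      have h3 := Pr_le_one hμ {v | φ v ≤ x}
      rw [Pr_univ hq] at h1
      linarith
    · obtain ⟨y, hy, hmin⟩ := Finset.exists_min_image U φ hU0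
      have hy' := (Finset.mem_filter.mp hy).2
      have h1 : Pr q {v | φ v < φ y} = Pr q {v | φ v ≤ x} + Pr q {v | x < φ v ∧ φ v < φ y} :=
        Pr_add fun v => ⟨⟨fun h => (le_or_gt (φ v) x).imp id fun h' => ⟨h', h⟩,
          fun h => h.elim (fun h' => lt_of_le_of_lt h' hy'.1) fun h' => h'.2⟩,
          fun h => absurd h.1 (not_le.mpr h.2.1)⟩
      have h2 : Pr q {v | x < φ v ∧ φ v < φ y} ≤ Pr q {w | η / 2 < Pr μ {v | φ v < φ w} -
          Pr q {v | φ v < φ w} ∨ η / 2 < Pr q {v | φ v ≤ φ w} - Pr μ {v | φ v ≤ φ w}} := by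
        refine Pr_mono hq.nonneg fun w _ hw => Or.inl (hD w hw.1 ?_)
        by_contra h3
        have h4 : w ∈ U := Finset.mem_filter.mpr ⟨Finset.mem_univ _, hw.1, not_le.mp h3⟩
        exact absurd (hmin w h4) (not_le.mpr hw.2)
      linarith
  · set U := univ.filter fun w => φ w ≤ x ∧ Pr q {v | φ v ≤ φ w} < Pr q {v | φ v ≤ x} - η / 2
      with hU
    have hD : ∀ w, φ w ≤ x → Pr q {v | φ v ≤ x} - η / 2 ≤ Pr q {v | φ v ≤ φ w} →
        η / 2 < Pr q {v | φ v ≤ φ w} - Pr μ {v | φ v ≤ φ w} := by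
      intro w h1 h2
      have h3 : Pr μ {v | φ v ≤ φ w} ≤ Pr μ {v | φ v ≤ x} :=
        Pr_mono hμ.nonneg fun v _ hv => le_trans hv h1
      linarith
    rcases U.eq_empty_or_nonempty with hU0 | hU0
    · have h2 : Pr q {v | φ v ≤ x} ≤ Pr q {w | η / 2 < Pr μ {v | φ v < φ w} -
          Pr q {v | φ v < φ w} ∨ η / 2 < Pr q {v | φ v ≤ φ w} - Pr μ {v | φ v ≤ φ w}} := by
        refine Pr_mono hq.nonneg fun w _ hw => Or.inr (hD w hw ?_)
        by_contra h3
        have h4 : w ∈ U := Finset.mem_filter.mpr ⟨Finset.mem_univ _, hw, not_le.mp h3⟩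
        rw [hU0] at h4
        exact absurd h4 (Finset.notMem_empty _)
      have h3 := Pr_nonneg hμ.nonneg {v | φ v ≤ x}
      linarith
    · obtain ⟨y, hy, hmax⟩ := Finset.exists_max_image U φ hU0
      have hy' := (Finset.mem_filter.mp hy).2
      have h1 : Pr q {v | φ v ≤ x} = Pr q {v | φ v ≤ φ y} + Pr q {v | φ y < φ v ∧ φ v ≤ x} :=
        Pr_add fun v => ⟨⟨fun h => (le_or_gt (φ v) (φ y)).imp id fun h' => ⟨h', h⟩,
          fun h => h.elim (fun h' => le_trans h' hy'.1) fun h' => h'.2⟩,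
          fun h => absurd h.1 (not_le.mpr h.2.1)⟩
      have h2 : Pr q {v | φ y < φ v ∧ φ v ≤ x} ≤ Pr q {w | η / 2 < Pr μ {v | φ v < φ w} -
          Pr q {v | φ v < φ w} ∨ η / 2 < Pr q {v | φ v ≤ φ w} - Pr μ {v | φ v ≤ φ w}} := by
        refine Pr_mono hq.nonneg fun w _ hw => Or.inr (hD w hw.2 ?_)
        by_contra h3
        have h4 : w ∈ U := Finset.mem_filter.mpr ⟨Finset.mem_univ _, hw.2, not_le.mp h3⟩
        exact absurd (hmax w h4) (not_le.mpr hw.1)
      linarith

theorem Pr_swap {q : Ω → ℝ} (D : Ω → Ω → Prop) :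
    ∑ w, q w * Pr q {v | D v w} = ∑ v, q v * Pr q {w | D v w} := by
  classical
  have e1 : ∀ w, q w * Pr q {v | D v w} = ∑ v, if D v w then q v * q w else 0 := by
    intro w
    rw [Pr_eq, Finset.mul_sum]
    refine Finset.sum_congr rfl fun v _ => ?_
    by_cases h : D v w
    · rw [if_pos h, if_pos (show v ∈ {v | D v w} from h)]
      ring
    · rw [if_neg h, if_neg (show v ∉ {v | D v w} from h), mul_zero]
  have e2 : ∀ v, q v * Pr q {w | D v w} = ∑ w, if D v w then q v * q w else 0 := by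
    intro v
    rw [Pr_eq, Finset.mul_sum]
    refine Finset.sum_congr rfl fun w _ => ?_
    by_cases h : D v w
    · rw [if_pos h, if_pos (show w ∈ {w | D v w} from h)]
    · rw [if_neg h, if_neg (show w ∉ {w | D v w} from h), mul_zero]
  rw [Finset.sum_congr rfl fun w _ => e1 w, Finset.sum_congr rfl fun v _ => e2 v,
    Finset.sum_comm]

/-- **The bit.** If many labels have a discrepancy, one binary function of the label carries
information on `φ`. -/
theorem ks_dich {q : Ω → ℝ} (hq : IsLaw q) (L : Ω → Λ) (φ : Ω → ℝ) {η : ℝ} (h0 : 0 < η)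
    (hB : η < Pr q {w | ∃ x, η < |Pr (cond q L (L w)) {v | φ v ≤ x} - Pr q {v | φ v ≤ x}|}) :
    ∃ z : Λ → Bool, (η ^ 3 / 16) ^ 2 ≤ H q φ - CH q φ (fun w => z (L w)) := by
  classical
  set D1 : Ω → Ω → Prop := fun v w => η / 2 < Pr (cond q L (L v)) {u | φ u < φ w} -
    Pr q {u | φ u < φ w} with hD1
  set D2 : Ω → Ω → Prop := fun v w => η / 2 < Pr q {u | φ u ≤ φ w} -
    Pr (cond q L (L v)) {u | φ u ≤ φ w} with hD2
  set B : Set Ω := {w | ∃ x, η < |Pr (cond q L (L w)) {v | φ v ≤ x} - Pr q {v | φ v ≤ x}|} with hBd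
  have hlaw : ∀ v, 0 < q v → IsLaw (cond q L (L v)) := fun v hv =>
    ⟨fun w => cond_nonneg hq.nonneg L _ w, sum_cond q L (law_pos hq.nonneg L hv).ne'⟩
  have h1 : ∀ v, q v * (if v ∈ B then η / 2 else 0) ≤ q v * Pr q {w | D1 v w ∨ D2 v w} := by
    intro v
    rcases (hq.nonneg v).eq_or_lt with hv | hv
    · rw [← hv, zero_mul, zero_mul]
    · refine mul_le_mul_of_nonneg_left ?_ hv.le
      by_cases hvB : v ∈ B
      · rw [if_pos hvB]
        obtain ⟨x, hx⟩ := hvB
        exact ks_pt hq (hlaw v hv) φ h0 hx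
      · rw [if_neg hvB]
        exact Pr_nonneg hq.nonneg _
  have h2 : η / 2 * Pr q B ≤ ∑ w, q w * Pr q {v | D1 v w ∨ D2 v w} := by
    rw [Pr_swap (fun v w => D1 v w ∨ D2 v w), Pr_eq_mul, Finset.mul_sum]
    refine le_trans (le_of_eq ?_) (Finset.sum_le_sum fun v _ => h1 v)
    refine Finset.sum_congr rfl fun v _ => ?_
    by_cases hvB : v ∈ B
    · rw [if_pos hvB, if_pos hvB]
      ring
    · rw [if_neg hvB, if_neg hvB]
      ring
  obtain ⟨w, hw⟩ : ∃ w, η ^ 2 / 2 ≤ Pr q {v | D1 v w ∨ D2 v w} := by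
    by_contra hcon
    push Not at hcon
    have h3 : ∑ w, q w * Pr q {v | D1 v w ∨ D2 v w} ≤ ∑ w, q w * (η ^ 2 / 2) :=
      Finset.sum_le_sum fun w _ => mul_le_mul_of_nonneg_left (hcon w).le (hq.nonneg w)
    rw [← Finset.sum_mul, hq.sum_one, one_mul] at h3
    nlinarith
  have h3 := Pr_union_le hq.nonneg {v | D1 v w} {v | D2 v w}
  have h4 : {v | D1 v w ∨ D2 v w} = {v | D1 v w} ∪ {v | D2 v w} := rfl
  rw [h4] at hw
  have hη : 0 ≤ η ^ 2 := sq_nonneg η
  rcases le_total (η ^ 2 / 4) (Pr q {v | D1 v w}) with h5 | h5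
  · refine ⟨fun l => decide (η / 2 < Pr (cond q L l) {u | φ u < φ w} - Pr q {u | φ u < φ w}), ?_⟩
    have h6 := gain hq L φ {u | φ u < φ w} (fun a a' _ _ h => by
      show (φ a < φ w) = (φ a' < φ w)
      rw [h])
      (fun l => decide (η / 2 < Pr (cond q L l) {u | φ u < φ w} - Pr q {u | φ u < φ w}))
      (κ := η / 2) (s := 1) (Or.inl rfl) (fun v hv => by
        rw [one_mul]
        exact (of_decide_eq_true hv).le) (by linarith)
    refine le_trans ?_ h6
    have h7 : {v | decide (η / 2 < Pr (cond q L (L v)) {u | φ u < φ w} - Pr q {u | φ u < φ w}) =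
        true} = {v | D1 v w} := by
      ext v
      simp [hD1]
    rw [h7]
    refine pow_le_pow_left₀ (by positivity) ?_ 2
    nlinarith [mul_le_mul_of_nonneg_left h5 h0.le]
  · refine ⟨fun l => decide (η / 2 < Pr q {u | φ u ≤ φ w} - Pr (cond q L l) {u | φ u ≤ φ w}), ?_⟩
    have h6 := gain hq L φ {u | φ u ≤ φ w} (fun a a' _ _ h => by
      show (φ a ≤ φ w) = (φ a' ≤ φ w)
      rw [h])
      (fun l => decide (η / 2 < Pr q {u | φ u ≤ φ w} - Pr (cond q L l) {u | φ u ≤ φ w}))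
      (κ := η / 2) (s := -1) (Or.inr rfl) (fun v hv => by
        have := (of_decide_eq_true hv).le
        linarith) (by linarith)
    refine le_trans ?_ h6
    have h7 : {v | decide (η / 2 < Pr q {u | φ u ≤ φ w} - Pr (cond q L (L v)) {u | φ u ≤ φ w}) =
        true} = {v | D2 v w} := by
      ext v
      simp [hD2]
    rw [h7]
    have h8 : η ^ 2 / 4 ≤ Pr q {v | D2 v w} := by linarith
    refine pow_le_pow_left₀ (by positivity) ?_ 2
    nlinarith [mul_le_mul_of_nonneg_left h8 h0.le]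

/-! ### Conditional form -/

/-- Conditioning on a label and on the same label with a variable which is constant. -/
theorem cond_pair {r : Ω → ℝ} (L : Ω → Λ) (c : Ω → γ) {s : γ} (hr : ∀ v, r v ≠ 0 → c v = s) (l : Λ) :
    cond r L l = cond r (fun v => (L v, c v)) (l, s) := by
  classical
  have e1 : law r L l = law r (fun v => (L v, c v)) (l, s) := by
    unfold law
    refine Finset.sum_congr rfl fun v _ => ?_
    by_cases h : r v = 0
    · simp [h]
    · simp [hr v h]
  funext v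
  unfold Pool.Agent.H49.Ent.cond
  rw [e1]
  by_cases h : r v = 0
  · simp [h]
  · simp [hr v h]

/-- The law of `φ` given the label `c` and given the line and `c`, for the line of `w`. -/
def KSbad (p : Ω → ℝ) (L : Ω → Λ) (c : Ω → γ) (φ : Ω → ℝ) (η : ℝ) (s : γ) : Set Ω :=
  {w | ∃ x, η < |Pr (cond p (fun v => (L v, c v)) (L w, s)) {v | φ v ≤ x} -
    Pr (cond p c s) {v | φ v ≤ x}|}

theorem step {p : Ω → ℝ} (hp : IsLaw p) (L : Ω → Λ) (c : Ω → γ) (φ : Ω → ℝ) {η : ℝ}
    (h0 : 0 < η) :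
    ∃ (z : Λ → γ → Bool) (Bad : Set γ), (∀ s, s ∉ Bad → ∀ l, z l s = false) ∧
      (∀ w, 0 < p w → c w ∉ Bad → Pr (cond p c (c w)) (KSbad p L c φ η (c w)) ≤ η) ∧
      (η ^ 3 / 16) ^ 2 * Pr p {w | c w ∈ Bad} ≤
        CH p φ c - CH p φ (fun w => (z (L w) (c w), c w)) := by
  classical
  have hlaw : ∀ v, 0 < p v → IsLaw (cond p c (c v)) := fun v hv =>
    ⟨fun w => cond_nonneg hp.nonneg c _ w, sum_cond p c (law_pos hp.nonneg c hv).ne'⟩
  set Q : γ → Set Ω := fun s => {w | ∃ x, η < |Pr (cond (cond p c s) L (L w)) {v | φ v ≤ x} -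
    Pr (cond p c s) {v | φ v ≤ x}|} with hQ
  set Bad : Set γ := {s | IsLaw (cond p c s) ∧ η < Pr (cond p c s) (Q s)} with hBad
  have hch : ∀ s, s ∈ Bad → ∃ z : Λ → Bool,
      (η ^ 3 / 16) ^ 2 ≤ H (cond p c s) φ - CH (cond p c s) φ (fun w => z (L w)) :=
    fun s hs => ks_dich hs.1 L φ h0 hs.2
  set z : Λ → γ → Bool := fun l s => if h : s ∈ Bad then (Classical.choose (hch s h)) l else false
    with hz
  refine ⟨z, Bad, fun s hs l => by simp [hz, hs], fun w hw hb => ?_, ?_⟩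
  · have h1 : ¬ η < Pr (cond p c (c w)) (Q (c w)) := fun h => hb ⟨hlaw w hw, h⟩
    refine le_trans (Pr_mono (hlaw w hw).nonneg fun v hv hvK => ?_) (not_lt.mp h1)
    obtain ⟨x, hx⟩ := hvK
    refine ⟨x, ?_⟩
    obtain ⟨h2, h3⟩ := (cond_pos_iff hp.nonneg c (c w) v).1 hv
    have h4 := HBL.cond_cond hp.nonneg (W := c) (W' := fun v => (L v, c v))
      (fun a a' _ _ h => (Prod.ext_iff.mp h).2) (w := c w) h2 h3
    have h5 := cond_pair (r := cond p c (c w)) L c (s := c w) (fun u hu => by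
      have hu' : 0 < cond p c (c w) u := lt_of_le_of_ne (cond_nonneg hp.nonneg _ _ _) (Ne.symm hu)
      exact ((cond_pos_iff hp.nonneg c (c w) u).1 hu').2) (L v)
    rw [h5]
    have h6 : (L v, c w) = (L v, c v) := by rw [h3]
    rw [h6, h4, ← h6]
    exact hx
  · have e1 : CH p φ (fun w => (z (L w) (c w), c w)) = CH p φ (fun w => (c w, z (L w) (c w))) :=
      CH_congr hp.nonneg (fun _ _ _ _ h => (Prod.ext_iff.mp h).1)
        (fun _ _ _ _ h => (Prod.ext_iff.mp h).1)
        (fun _ _ _ _ h => Prod.ext (Prod.ext_iff.mp h).2 (Prod.ext_iff.mp h).1)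
        (fun _ _ _ _ h => Prod.ext (Prod.ext_iff.mp h).2 (Prod.ext_iff.mp h).1)
    rw [e1, ← TIQ.Ex_CH hp.nonneg c φ (fun w => z (L w) (c w)), ← CDF.Ex_H hp.nonneg, Pr_eq]
    unfold Ex
    rw [Finset.mul_sum, ← Finset.sum_sub_distrib]
    refine Finset.sum_le_sum fun w _ => ?_
    rcases (hp.nonneg w).eq_or_lt with hw | hw
    · rw [← hw]
      simp
    · have hr := hlaw w hw
      by_cases hb : c w ∈ Bad
      · rw [if_pos (show w ∈ {w | c w ∈ Bad} from hb)]
        have h1 := Classical.choose_spec (hch (c w) hb)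
        have h2 : CH (cond p c (c w)) φ (fun w => z (L w) (c w)) =
            CH (cond p c (c w)) φ (fun v => (Classical.choose (hch (c w) hb)) (L v)) := by
          have h3 : ∀ v, 0 < cond p c (c w) v → z (L v) (c v) =
              (Classical.choose (hch (c w) hb)) (L v) := by
            intro v hv
            have h4 := ((cond_pos_iff hp.nonneg c (c w) v).1 hv).2
            rw [h4]
            simp [hz, hb]
          refine CH_congr hr.nonneg (fun _ _ _ _ h => (Prod.ext_iff.mp h).1)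
            (fun _ _ _ _ h => (Prod.ext_iff.mp h).1) ?_ ?_
          · intro v v' hv hv' h
            have h' : z (L v) (c v) = z (L v') (c v') := h
            rw [h3 v hv, h3 v' hv'] at h'
            exact h'
          · intro v v' hv hv' h
            show z (L v) (c v) = z (L v') (c v')
            rw [h3 v hv, h3 v' hv']
            exact h
        beta_reduce
        rw [h2, ← mul_sub]
        rw [mul_comm]
        exact mul_le_mul_of_nonneg_left h1 hw.le
      · rw [if_neg (show w ∉ {w | c w ∈ Bad} from hb), mul_zero, ← mul_sub]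
        refine mul_nonneg hw.le ?_
        have h1 := CH_mono_cond hr.nonneg (X := φ) (W' := fun w => z (L w) (c w))
          (W := fun _ => ()) (fun _ _ _ _ _ => rfl)
        have h2 : CH (cond p c (c w)) φ (fun _ => ()) = H (cond p c (c w)) φ := by
          unfold CH
          rw [H_const hr.sum_one, sub_zero]
          exact H_congr hr.nonneg (fun _ _ _ _ h => Prod.ext h rfl)
            (fun _ _ _ _ h => (Prod.ext_iff.mp h).1)
        linarith

/-- Potential step. -/
theorem pot {p : Ω → ℝ} (hp : ∀ ω, 0 ≤ p ω) {S₁ S₂ S₃ S₄ S₅ S₆ : Type} {T : Ω → S₁} {L : Ω → S₂}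
    {c : Ω → S₃} {c' : Ω → S₄} {φ : Ω → S₅} {ζ : Ω → S₆} (hφ : Det p (fun ω => (T ω, c ω)) φ)
    (hζ : Det p (fun ω => (L ω, c ω)) ζ) (hc' : Det p (fun ω => (T ω, (ζ ω, c ω))) c')
    (hcc : Det p c' (fun ω => (ζ ω, c ω))) :
    CH p T c' - CH p T (fun ω => (L ω, c' ω)) + (CH p φ c - CH p φ (fun ω => (ζ ω, c ω))) ≤
      CH p T c - CH p T (fun ω => (L ω, c ω)) := by
  have k1 : CH p T (fun ω => (L ω, c ω)) = CH p T (fun ω => (L ω, (ζ ω, c ω))) := by
    refine CH_congr hp (fun _ _ _ _ h => (Prod.ext_iff.mp h).1)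
      (fun _ _ _ _ h => (Prod.ext_iff.mp h).1) ?_ ?_
    · intro ω ω' a b h
      have h1 := Prod.ext_iff.mp h
      exact Prod.ext h1.1 (Prod.ext (hζ ω ω' a b h) h1.2)
    · intro ω ω' a b h
      have h1 := Prod.ext_iff.mp h
      exact Prod.ext h1.1 (Prod.ext_iff.mp h1.2).2
  have k2 : CH p T (fun ω => (ζ ω, c ω)) = CH p c' (fun ω => (ζ ω, c ω)) + CH p T c' := by
    have h1 := CH_chain hp T c' (fun ω => (ζ ω, c ω))
    have h2 : CH p (fun ω => (T ω, c' ω)) (fun ω => (ζ ω, c ω)) = CH p T (fun ω => (ζ ω, c ω)) :=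
      CH_congr hp (fun _ _ _ _ h => (Prod.ext_iff.mp (Prod.ext_iff.mp h).1).1)
        (fun ω ω' a b h => Prod.ext (Prod.ext_iff.mp h).1 (hc' ω ω' a b h))
        (fun _ _ _ _ h => h) (fun _ _ _ _ h => h)
    have h3 : CH p T (fun ω => (c' ω, (ζ ω, c ω))) = CH p T c' :=
      CH_congr hp (fun _ _ _ _ h => (Prod.ext_iff.mp h).1)
        (fun _ _ _ _ h => (Prod.ext_iff.mp h).1)
        (fun _ _ _ _ h => (Prod.ext_iff.mp h).1)
        (fun ω ω' a b h => Prod.ext h (hcc ω ω' a b h))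
    linarith
  have k3 : CH p T (fun ω => (L ω, (ζ ω, c ω))) =
      CH p c' (fun ω => (L ω, (ζ ω, c ω))) + CH p T (fun ω => (L ω, c' ω)) := by
    have h1 := CH_chain hp T c' (fun ω => (L ω, (ζ ω, c ω)))
    have h2 : CH p (fun ω => (T ω, c' ω)) (fun ω => (L ω, (ζ ω, c ω))) =
        CH p T (fun ω => (L ω, (ζ ω, c ω))) :=
      CH_congr hp (fun _ _ _ _ h => (Prod.ext_iff.mp (Prod.ext_iff.mp h).1).1)
        (fun ω ω' a b h => by
          have h1 := Prod.ext_iff.mp h
          exact Prod.ext h1.1 (hc' ω ω' a b (Prod.ext h1.1 (Prod.ext_iff.mp h1.2).2)))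
        (fun _ _ _ _ h => h) (fun _ _ _ _ h => h)
    have h3 : CH p T (fun ω => (c' ω, (L ω, (ζ ω, c ω)))) = CH p T (fun ω => (L ω, c' ω)) :=
      CH_congr hp (fun _ _ _ _ h => (Prod.ext_iff.mp h).1)
        (fun _ _ _ _ h => (Prod.ext_iff.mp h).1)
        (fun _ _ _ _ h => Prod.ext (Prod.ext_iff.mp (Prod.ext_iff.mp h).2).1
          (Prod.ext_iff.mp h).1)
        (fun ω ω' a b h => by
          have h1 := Prod.ext_iff.mp h
          exact Prod.ext h1.2 (Prod.ext h1.1 (hcc ω ω' a b h1.2)))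
    linarith
  have k4 : CH p c' (fun ω => (L ω, (ζ ω, c ω))) ≤ CH p c' (fun ω => (ζ ω, c ω)) :=
    CH_mono_cond hp (fun _ _ _ _ h => (Prod.ext_iff.mp h).2)
  have k5 : CH p T c = CH p φ c + CH p T (fun ω => (φ ω, c ω)) := by
    have h1 := CH_chain hp T φ c
    have h2 : CH p (fun ω => (T ω, φ ω)) c = CH p T c :=
      CH_congr hp (fun _ _ _ _ h => (Prod.ext_iff.mp (Prod.ext_iff.mp h).1).1)
        (fun ω ω' a b h => Prod.ext (Prod.ext_iff.mp h).1 (hφ ω ω' a b h))
        (fun _ _ _ _ h => h) (fun _ _ _ _ h => h)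
    linarith
  have k6 : CH p T (fun ω => (ζ ω, c ω)) = CH p φ (fun ω => (ζ ω, c ω)) +
      CH p T (fun ω => (φ ω, (ζ ω, c ω))) := by
    have h1 := CH_chain hp T φ (fun ω => (ζ ω, c ω))
    have h2 : CH p (fun ω => (T ω, φ ω)) (fun ω => (ζ ω, c ω)) = CH p T (fun ω => (ζ ω, c ω)) :=
      CH_congr hp (fun _ _ _ _ h => (Prod.ext_iff.mp (Prod.ext_iff.mp h).1).1)
        (fun ω ω' a b h => by
          have h1 := Prod.ext_iff.mp h
          exact Prod.ext h1.1 (hφ ω ω' a b (Prod.ext h1.1 (Prod.ext_iff.mp h1.2).2)))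
        (fun _ _ _ _ h => h) (fun _ _ _ _ h => h)
    linarith
  have k7 : CH p T (fun ω => (φ ω, (ζ ω, c ω))) ≤ CH p T (fun ω => (φ ω, c ω)) :=
    CH_mono_cond hp (fun _ _ _ _ h => Prod.ext (Prod.ext_iff.mp h).1
      (Prod.ext_iff.mp (Prod.ext_iff.mp h).2).2)
  linarith

/-- The entropy of a bit which is trivial outside `Bad`. -/
theorem cost {p : Ω → ℝ} (hp : IsLaw p) (c : Ω → γ) (Bad : Set γ) (x : Ω → Bool)
    (hx : ∀ w, 0 < p w → c w ∉ Bad → x w = false) :
    CH p x c ≤ Real.log 2 * Pr p {w | c w ∈ Bad} := by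
  classical
  rw [← CDF.Ex_H hp.nonneg, Pr_eq]
  unfold Ex
  rw [Finset.mul_sum]
  refine Finset.sum_le_sum fun w _ => ?_
  rcases (hp.nonneg w).eq_or_lt with hw | hw
  · rw [← hw]
    simp
  · have hr : IsLaw (cond p c (c w)) :=
      ⟨fun v => cond_nonneg hp.nonneg c _ v, sum_cond p c (law_pos hp.nonneg c hw).ne'⟩
    by_cases hb : c w ∈ Bad
    · rw [if_pos (show w ∈ {w | c w ∈ Bad} from hb), mul_comm]
      refine mul_le_mul_of_nonneg_right ?_ hw.le
      have h1 := H_le_log_card hr.nonneg hr.sum_one x Finset.univ (fun _ _ => Finset.mem_univ _)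
      simpa using h1
    · rw [if_neg (show w ∉ {w | c w ∈ Bad} from hb), mul_zero]
      have h1 : H (cond p c (c w)) x = 0 := by
        rw [← H_const hr.sum_one false]
        refine H_congr hr.nonneg ?_ (fun _ _ _ _ _ => rfl)
        intro v v' hv hv' _
        obtain ⟨a1, a2⟩ := (cond_pos_iff hp.nonneg c (c w) v).1 hv
        obtain ⟨b1, b2⟩ := (cond_pos_iff hp.nonneg c (c w) v').1 hv'
        rw [hx v a1 (a2 ▸ hb), hx v' b1 (b2 ▸ hb)]
      beta_reduce
      rw [h1, mul_zero]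

/-! ### Intervals -/

theorem ks_lt {μ q : Ω → ℝ} (φ : Ω → ℝ) {η : ℝ} (h0 : 0 ≤ η)
    (h : ∀ x, |Pr μ {v | φ v ≤ x} - Pr q {v | φ v ≤ x}| ≤ η) (y : ℝ) :
    |Pr μ {v | φ v < y} - Pr q {v | φ v < y}| ≤ η := by
  classical
  set F := univ.filter fun w => φ w < y with hF
  rcases F.eq_empty_or_nonempty with hF0 | hF0
  · have h1 : ∀ r : Ω → ℝ, Pr r {v | φ v < y} = 0 := by
      intro r
      rw [Pr_eq]
      refine Finset.sum_eq_zero fun v _ => if_neg fun hv => ?_
      have h2 : v ∈ F := Finset.mem_filter.mpr ⟨Finset.mem_univ _, hv⟩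
      rw [hF0] at h2
      exact absurd h2 (Finset.notMem_empty _)
    rw [h1, h1, sub_zero, abs_zero]
    exact h0
  · obtain ⟨a, ha, hmax⟩ := Finset.exists_max_image F φ hF0
    have ha' := (Finset.mem_filter.mp ha).2
    have h1 : {v | φ v < y} = {v | φ v ≤ φ a} := by
      ext v
      exact ⟨fun hv => hmax v (Finset.mem_filter.mpr ⟨Finset.mem_univ _, hv⟩),
        fun hv => lt_of_le_of_lt hv ha'⟩
    rw [h1]
    exact h _

theorem ks_int {μ q : Ω → ℝ} (φ : Ω → ℝ) {η : ℝ} (h0 : 0 ≤ η)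
    (h : ∀ x, |Pr μ {v | φ v ≤ x} - Pr q {v | φ v ≤ x}| ≤ η) (I : Set ℝ) (hI : I.OrdConnected) :
    |Pr μ {v | φ v ∈ I} - Pr q {v | φ v ∈ I}| ≤ 2 * η := by
  classical
  set F := univ.filter fun w => φ w ∈ I with hF
  rcases F.eq_empty_or_nonempty with hF0 | hF0
  · have h1 : ∀ r : Ω → ℝ, Pr r {v | φ v ∈ I} = 0 := by
      intro r
      rw [Pr_eq]
      refine Finset.sum_eq_zero fun v _ => if_neg fun hv => ?_
      have h2 : v ∈ F := Finset.mem_filter.mpr ⟨Finset.mem_univ _, hv⟩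
      rw [hF0] at h2
      exact absurd h2 (Finset.notMem_empty _)
    rw [h1, h1, sub_zero, abs_zero]
    linarith
  · obtain ⟨a, ha, hmin⟩ := Finset.exists_min_image F φ hF0
    obtain ⟨b, hb, hmax⟩ := Finset.exists_max_image F φ hF0
    have ha' := (Finset.mem_filter.mp ha).2
    have hb' := (Finset.mem_filter.mp hb).2
    have hab : φ a ≤ φ b := hmin b hb
    have h1 : ∀ r : Ω → ℝ, Pr r {v | φ v ≤ φ b} = Pr r {v | φ v ∈ I} + Pr r {v | φ v < φ a} := by
      intro r
      refine Pr_add fun v => ⟨⟨fun hv => ?_, fun hv => ?_⟩, fun hv => ?_⟩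
      · rcases lt_or_ge (φ v) (φ a) with h2 | h2
        · exact Or.inr h2
        · exact Or.inl (hI.out ha' hb' ⟨h2, hv⟩)
      · rcases hv with hv | hv
        · exact hmax v (Finset.mem_filter.mpr ⟨Finset.mem_univ _, hv⟩)
        · exact le_trans (le_of_lt hv) hab
      · have h2 := hmin v (Finset.mem_filter.mpr ⟨Finset.mem_univ _, hv.1⟩)
        exact absurd (show φ v < φ a from hv.2) (not_lt.mpr h2)
    have h2 := abs_le.mp (h (φ b))
    have h3 := abs_le.mp (ks_lt φ h0 h (φ a))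
    rw [h1 μ, h1 q] at h2
    rw [abs_le]
    constructor <;> linarith [h2.1, h2.2, h3.1, h3.2]

end TYP

/-- The lines (samples) for which the law of `φ` given the line and the context value `s` differs
from the law given `s` on some interval. -/
def Atyp {Ω Λ γ : Type} [Fintype Ω] (p : Ω → ℝ) (L : Ω → Λ) (c : Ω → γ) (φ : Ω → ℝ) (η : ℝ)
    (s : γ) : Set Ω :=
  {w | ∃ I : Set ℝ, I.OrdConnected ∧ η < |Pr (cond p (fun v => (L v, c v)) (L w, s))
    {v | φ v ∈ I} - Pr (cond p c s) {v | φ v ∈ I}|}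

/-- Row TYP: adapted binary labels which fix the types of lines. -/
def TYPStmt : Prop :=
  ∀ η : ℝ, 0 < η → ∃ δ : ℝ, 0 < δ ∧
  ∀ (Ω β Λ τ ν : Type) [Fintype Ω] (p : Ω → ℝ) (b : Ω → β) (L : Ω → Λ) (T : Ω → τ)
    (V : ℕ → Ω → ν) (φ : ℕ → Ω → ℝ), IsLaw p →
    (∀ i, Det p (fun w => (b w, T w)) (V i)) →
    (∀ i, Det p (fun w => (b w, V (i + 1) w)) (V i)) →
    (∀ i, Det p (fun w => (b w, T w)) (φ i)) →
    ∃ (Z : ℕ → Ω → List Bool) (z : ℕ → Λ → β × ν × List Bool → Bool)
      (Bad : ℕ → Set (β × ν × List Bool)),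
      (∀ w, Z 0 w = []) ∧
      (∀ i w, Z (i + 1) w = z i (L w) (b w, V i w, Z i w) :: Z i w) ∧
      (∀ i s, s ∉ Bad i → ∀ l, z i l s = false) ∧
      (∀ n, δ * ∑ i ∈ range n, Pr p {w | (b w, V i w, Z i w) ∈ Bad i} ≤
        CH p T b - CH p T (fun w => (L w, b w))) ∧
      (∀ n, ∑ i ∈ range n, CH p (Z (i + 1)) (fun w => (b w, V i w, Z i w)) ≤
        Real.log 2 * ∑ i ∈ range n, Pr p {w | (b w, V i w, Z i w) ∈ Bad i}) ∧
      (∀ i w, 0 < p w → (b w, V i w, Z i w) ∉ Bad i →
        Pr (cond p (fun v => (b v, V i v, Z i v)) (b w, V i w, Z i w))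
          (Atyp p L (fun v => (b v, V i v, Z i v)) (φ i) η (b w, V i w, Z i w)) ≤ η)

namespace TYP

variable {Ω Λ β ν : Type} [Fintype Ω]

/-- The labels. -/
noncomputable def lab (zz : ℕ → (Ω → β × ν × List Bool) → Λ → β × ν × List Bool → Bool)
    (b : Ω → β) (L : Ω → Λ) (V : ℕ → Ω → ν) : ℕ → Ω → List Bool
  | 0, _ => []
  | i + 1, w => zz i (fun v => (b v, V i v, lab zz b L V i v)) (L w)
      (b w, V i w, lab zz b L V i w) :: lab zz b L V i w

end TYP

theorem typ_thm : TYPStmt := by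
  classical
  intro η hη
  have hη2 : 0 < η / 2 := by linarith
  refine ⟨((η / 2) ^ 3 / 16) ^ 2, by positivity, ?_⟩
  intro Ω β Λ τ ν _ p b L T V φ hp hV hVV hφ
  have hst := fun (i : ℕ) (c : Ω → β × ν × List Bool) => TYP.step hp L c (φ i) hη2
  choose zz BB h1 h2 h3 using hst
  set Z : ℕ → Ω → List Bool := TYP.lab zz b L V with hZ
  set c : ℕ → Ω → β × ν × List Bool := fun i w => (b w, V i w, Z i w) with hc
  have hZs : ∀ i w, Z (i + 1) w = zz i (c i) (L w) (c i w) :: Z i w := fun i w => rfl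
  refine ⟨Z, fun i => zz i (c i), fun i => BB i (c i), fun w => rfl, hZs,
    fun i s hs l => h1 i (c i) s hs l, ?_, ?_, ?_⟩
  · -- potential
    have hpot : ∀ i, CH p T (c (i + 1)) - CH p T (fun w => (L w, c (i + 1) w)) +
        (CH p (φ i) (c i) - CH p (φ i) (fun w => (zz i (c i) (L w) (c i w), c i w))) ≤
        CH p T (c i) - CH p T (fun w => (L w, c i w)) := by
      intro i
      refine TYP.pot hp.nonneg (T := T) (L := L) (c := c i) (c' := c (i + 1)) (φ := φ i)
        (ζ := fun w => zz i (c i) (L w) (c i w)) ?_ ?_ ?_ ?_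
      · intro w w' a a' h
        simp only [hc, Prod.mk.injEq] at h
        exact hφ i w w' a a' (Prod.ext h.2.1 h.1)
      · intro w w' _ _ h
        simp only [Prod.mk.injEq] at h
        show zz i (c i) (L w) (c i w) = zz i (c i) (L w') (c i w')
        rw [h.1, h.2]
      · intro w w' a a' h
        simp only [Prod.mk.injEq] at h
        have hci : c i w = c i w' := h.2.2
        have hb : b w = b w' := (Prod.ext_iff.mp hci).1
        have hZi : Z i w = Z i w' := (Prod.ext_iff.mp (Prod.ext_iff.mp hci).2).2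
        show (b w, V (i + 1) w, Z (i + 1) w) = (b w', V (i + 1) w', Z (i + 1) w')
        rw [hZs, hZs, hb, hZi, hV (i + 1) w w' a a' (Prod.ext hb h.1)]
        rw [h.2.1]
      · intro w w' a a' h
        have h5 := Prod.ext_iff.mp h
        have h6 := Prod.ext_iff.mp h5.2
        have hb : b w = b w' := h5.1
        have hV1 : V (i + 1) w = V (i + 1) w' := h6.1
        have hZ1 : Z (i + 1) w = Z (i + 1) w' := h6.2
        rw [hZs, hZs, List.cons.injEq] at hZ1
        have hVi : V i w = V i w' := hVV i w w' a a' (Prod.ext hb hV1)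
        refine Prod.ext hZ1.1 ?_
        show (b w, V i w, Z i w) = (b w', V i w', Z i w')
        rw [hb, hVi, hZ1.2]
    have hzero : CH p T (c 0) - CH p T (fun w => (L w, c 0 w)) ≤
        CH p T b - CH p T (fun w => (L w, b w)) := by
      have h5 := TYP.pot hp.nonneg (T := T) (L := L) (c := b) (c' := c 0) (φ := fun _ : Ω => ())
        (ζ := fun _ : Ω => ()) (fun _ _ _ _ _ => rfl) (fun _ _ _ _ _ => rfl) ?_ ?_
      · have h6 : CH p (fun _ : Ω => ()) b = 0 := CH_eq_zero hp.nonneg (fun _ _ _ _ _ => rfl)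
        have h7 : CH p (fun _ : Ω => ()) (fun w => ((), b w)) = 0 :=
          CH_eq_zero hp.nonneg (fun _ _ _ _ _ => rfl)
        rw [h6, h7] at h5
        linarith
      · intro w w' a a' h
        simp only [Prod.mk.injEq] at h
        show (b w, V 0 w, Z 0 w) = (b w', V 0 w', Z 0 w')
        rw [h.2.2, hV 0 w w' a a' (Prod.ext h.2.2 h.1)]
        rfl
      · intro w w' _ _ h
        exact Prod.ext rfl (Prod.ext_iff.mp h).1
    have hind : ∀ n, ((η / 2) ^ 3 / 16) ^ 2 * ∑ i ∈ range n, Pr p {w | c i w ∈ BB i (c i)} +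
        (CH p T (c n) - CH p T (fun w => (L w, c n w))) ≤
        CH p T (c 0) - CH p T (fun w => (L w, c 0 w)) := by
      intro n
      induction n with
      | zero => simp
      | succ n ih =>
        rw [sum_range_succ, mul_add]
        have h5 := hpot n
        have h6 := h3 n (c n)
        linarith
    intro n
    have h5 := hind n
    have h6 := CH_mono_cond hp.nonneg (X := T) (W' := fun w => (L w, c n w)) (W := c n)
      (fun _ _ _ _ h => (Prod.ext_iff.mp h).2)
    show ((η / 2) ^ 3 / 16) ^ 2 * ∑ i ∈ range n, Pr p {w | c i w ∈ BB i (c i)} ≤ _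
    linarith
  · intro n
    rw [Finset.mul_sum]
    refine Finset.sum_le_sum fun i _ => ?_
    have h5 := TYP.cost hp (c i) (BB i (c i)) (fun w => zz i (c i) (L w) (c i w))
      (fun w _ hw => h1 i (c i) _ hw _)
    refine le_trans (le_of_eq ?_) h5
    refine CH_congr hp.nonneg ?_ ?_ (fun _ _ _ _ h => h) (fun _ _ _ _ h => h)
    · intro w w' _ _ h
      have h6 := (Prod.ext_iff.mp h).1
      simp only at h6
      rw [hZs, hZs, List.cons.injEq] at h6
      exact h6.1
    · intro w w' _ _ h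
      have h6 := Prod.ext_iff.mp h
      have h7 : Z i w = Z i w' := (Prod.ext_iff.mp (Prod.ext_iff.mp h6.2).2).2
      rw [hZs, hZs, h7]
      exact congrArg (· :: Z i w') h6.1
  · intro i w hw hb
    have h5 := h2 i (c i) w hw hb
    have hr : IsLaw (cond p (c i) (c i w)) :=
      ⟨fun v => cond_nonneg hp.nonneg (c i) _ v,
        sum_cond p (c i) (law_pos hp.nonneg (c i) hw).ne'⟩
    refine le_trans (Pr_mono hr.nonneg fun v _ hv => ?_) (h5.trans (by linarith))
    by_contra hcon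
    obtain ⟨I, hI, hlt⟩ := hv
    have h6 : ∀ x, |Pr (cond p (fun v => (L v, c i v)) (L v, c i w)) {u | φ i u ≤ x} -
        Pr (cond p (c i) (c i w)) {u | φ i u ≤ x}| ≤ η / 2 := by
      intro x
      by_contra hx
      exact hcon ⟨x, not_le.mp hx⟩
    have h7 := TYP.ks_int (φ i) hη2.le h6 I hI
    have h8 : 2 * (η / 2) = η := by ring
    rw [h8] at h7
    exact absurd hlt (not_lt.mpr h7)

/-! ### Consequences of the form of the labels -/

namespace TYP

variable {Ω Λ β ν υ : Type} [Fintype Ω] {p : Ω → ℝ} {b : Ω → β} {L : Ω → Λ} {V : ℕ → Ω → ν}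
  {Z : ℕ → Ω → List Bool} {z : ℕ → Λ → β × ν × List Bool → Bool}

omit [Fintype Ω] in
/-- The labels up to level `i` are functions of the line and the window of level `i`. -/
theorem det_lab (hVV : ∀ i, Det p (fun w => (b w, V (i + 1) w)) (V i)) (hZ0 : ∀ w, Z 0 w = [])
    (hZs : ∀ i w, Z (i + 1) w = z i (L w) (b w, V i w, Z i w) :: Z i w) (i : ℕ) :
    Det p (fun w => (L w, (b w, V i w))) (Z (i + 1)) := by
  induction i with
  | zero =>
    intro w w' _ _ h
    simp only [Prod.mk.injEq] at h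
    rw [hZs, hZs, hZ0, hZ0, h.1, h.2.1, h.2.2]
  | succ i ih =>
    intro w w' a a' h
    simp only [Prod.mk.injEq] at h
    have h1 := hVV i w w' a a' (Prod.ext h.2.1 h.2.2)
    have h2 := ih w w' a a' (Prod.ext h.1 (Prod.ext h.2.1 h1))
    rw [hZs (i + 1), hZs (i + 1), h.1, h.2.1, h.2.2, h2]

/-- The total entropy of the labels given any label which knows the windows. -/
theorem cost_all (hp : ∀ w, 0 ≤ p w) (hZ0 : ∀ w, Z 0 w = []) (U : Ω → υ) (n : ℕ)
    (hU : ∀ i < n, Det p U (fun w => (b w, V i w))) :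
    CH p (Z n) U ≤ ∑ i ∈ range n, CH p (Z (i + 1)) (fun w => (b w, V i w, Z i w)) := by
  induction n with
  | zero =>
    rw [sum_range_zero, CH_eq_zero hp]
    intro w w' _ _ _
    rw [hZ0, hZ0]
  | succ n ih =>
    rw [sum_range_succ]
    have h1 := ih fun i hi => hU i (Nat.lt_succ_of_lt hi)
    have h2 := CH_le_add hp (Z (n + 1)) (Z n) U
    have h3 : CH p (Z (n + 1)) (fun w => (Z n w, U w)) ≤
        CH p (Z (n + 1)) (fun w => (b w, V n w, Z n w)) := by
      refine CH_mono_cond hp ?_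
      intro w w' a a' h
      have h4 := Prod.ext_iff.mp h
      have h5 := Prod.ext_iff.mp (hU n (Nat.lt_succ_self n) w w' a a' h4.2)
      exact Prod.ext h5.1 (Prod.ext h5.2 h4.1)
    linarith

/-- Few samples have an atypical line at a level which is not bad. -/
theorem few_atyp {γ : Type} (hp : IsLaw p) (L : Ω → Λ) (c : Ω → γ) (φ : Ω → ℝ) {η : ℝ} (hη : 0 ≤ η)
    (Bad : Set γ) (h : ∀ w, 0 < p w → c w ∉ Bad → Pr (cond p c (c w)) (Atyp p L c φ η (c w)) ≤ η) :
    Pr p {w | c w ∉ Bad ∧ w ∈ Atyp p L c φ η (c w)} ≤ η := by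
  classical
  set A : Set Ω := {w | c w ∉ Bad ∧ w ∈ Atyp p L c φ η (c w)} with hA
  have h1 : Pr p A = ∑ w, p w * (1 * Pr (cond p c (c w)) A) := by
    rw [avg_pc hp.nonneg c (fun _ => 1) A, Pr_eq_mul]
    simp
  have h2 : ∀ w, p w * (1 * Pr (cond p c (c w)) A) ≤ p w * η := by
    intro w
    rcases (hp.nonneg w).eq_or_lt with hw | hw
    · rw [← hw, zero_mul, zero_mul]
    refine mul_le_mul_of_nonneg_left ?_ hw.le
    rw [one_mul]
    have hr := cond_nonneg hp.nonneg c (c w)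
    by_cases hb : c w ∈ Bad
    · have h3 : Pr (cond p c (c w)) A ≤ 0 := by
        have h4 : Pr (cond p c (c w)) A ≤ Pr (cond p c (c w)) ∅ := by
          refine Pr_mono hr fun v hv hvA => ?_
          have h5 := ((cond_pos_iff hp.nonneg c (c w) v).1 hv).2
          exact absurd (h5 ▸ hb) hvA.1
        have h6 : Pr (cond p c (c w)) ∅ = 0 := by
          rw [Pr_eq]
          simp
        linarith
      linarith
    · refine le_trans (Pr_mono hr fun v hv hvA => ?_) (h w hw hb)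
      have h5 := ((cond_pos_iff hp.nonneg c (c w) v).1 hv).2
      rw [← h5]
      exact hvA.2
  rw [h1]
  refine (Finset.sum_le_sum fun w _ => h2 w).trans ?_
  rw [← Finset.sum_mul, hp.sum_one, one_mul]

end TYP

end Pool.LJ
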