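import Pool.Agent.H90.STK.Defs

/-!
# Lower bound for the entropy by a collision probability under a reference law

`p` is the true law, `q` the reference law; the entropy of `X` under `p` is at least minus the
logarithm of the collision probability of `X` under `q`, up to twice the relative entropy.
-/

set_option autoImplicit false

namespace Pool.KAL

open Finset Real
open Pool.Agent.H49.Ent Pool.STK

variable {Ω S : Type} [Fintype Ω]

/-- Relative entropy of two laws on a finite type. -/
noncomputable def KLd (p q : Ω → ℝ) : ℝ := ∑ ω, p ω * Real.log (p ω / q ω)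

/-- Collision probability of `X` under `q`. -/
noncomputable def coll (q : Ω → ℝ) (X : Ω → S) : ℝ := ∑ ω, q ω * law q X (X ω)

theorem coll_nonneg {q : Ω → ℝ} (hq : ∀ ω, 0 ≤ q ω) (X : Ω → S) : 0 ≤ coll q X :=
  Finset.sum_nonneg fun ω _ => mul_nonneg (hq ω) (law_nonneg hq X _)

/-- One step of Gibbs' inequality. -/
theorem gibbs_step {p q f : Ω → ℝ} {c : ℝ} (hp : IsLaw p) (hq : ∀ ω, 0 ≤ q ω)
    (hpq : ∀ ω, q ω = 0 → p ω = 0) (hf : ∀ ω, 0 < p ω → 0 < f ω) (hf0 : ∀ ω, 0 ≤ f ω)
    (hc : 0 < c) (hs : ∑ ω, q ω * f ω ≤ c) :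
    ∑ ω, p ω * Real.log (f ω) ≤ Real.log c + KLd p q := by
  have key : ∀ ω, p ω * Real.log (f ω) ≤
      p ω * Real.log c + p ω * Real.log (p ω / q ω) + (q ω * f ω / c - p ω) := by
    intro ω
    rcases (hp.nonneg ω).eq_or_lt with h0 | h0
    · rw [← h0]
      have : 0 ≤ q ω * f ω / c := div_nonneg (mul_nonneg (hq ω) (hf0 ω)) hc.le
      simpa using this
    · have hq0 : 0 < q ω := by
        rcases (hq ω).eq_or_lt with h1 | h1
        · exact absurd (hpq ω h1.symm) h0.ne'
        · exact h1
      have hf1 := hf ω h0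
      have h2 : Real.log (q ω * f ω / (p ω * c)) ≤ q ω * f ω / (p ω * c) - 1 :=
        Real.log_le_sub_one_of_pos (by positivity)
      rw [Real.log_div (by positivity) (by positivity), Real.log_mul hq0.ne' hf1.ne',
        Real.log_mul h0.ne' hc.ne'] at h2
      rw [Real.log_div h0.ne' hq0.ne']
      have h3 := mul_le_mul_of_nonneg_left h2 h0.le
      have h4 : p ω * (q ω * f ω / (p ω * c) - 1) = q ω * f ω / c - p ω := by
        field_simp
      rw [h4] at h3
      linarith
  have h5 := Finset.sum_le_sum fun ω (_ : ω ∈ (univ : Finset Ω)) => key ω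
  have h6 : ∑ ω, (p ω * Real.log c + p ω * Real.log (p ω / q ω) + (q ω * f ω / c - p ω)) =
      Real.log c + KLd p q + ((∑ ω, q ω * f ω) / c - 1) := by
    rw [Finset.sum_add_distrib, Finset.sum_add_distrib, Finset.sum_sub_distrib, ← Finset.sum_mul,
      hp.sum_one, ← Finset.sum_div]
    unfold KLd
    ring
  have h7 : (∑ ω, q ω * f ω) / c ≤ 1 := (div_le_one hc).mpr hs
  linarith

/-- Lower bound for the entropy by a collision energy under a reference measure. -/
theorem dvc0 {p q : Ω → ℝ} (hp : IsLaw p) (hq : ∀ ω, 0 ≤ q ω) (hpq : ∀ ω, q ω = 0 → p ω = 0)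
    (X : Ω → S) {c : ℝ} (hc : 0 < c) (h : coll q X ≤ c) :
    -Real.log c - 2 * KLd p q ≤ H p X := by
  classical
  have hq' : ∀ ω, 0 < p ω → 0 < q ω := fun ω h0 => by
    rcases (hq ω).eq_or_lt with h1 | h1
    · exact absurd (hpq ω h1.symm) h0.ne'
    · exact h1
  have hA : ∑ ω, p ω * Real.log (law q X (X ω)) ≤ Real.log c + KLd p q :=
    gibbs_step hp hq hpq (fun ω h0 => law_pos hq X (hq' ω h0))
      (fun ω => law_nonneg hq X _) hc h
  have hs : ∑ ω, q ω * (law p X (X ω) / law q X (X ω)) ≤ 1 := by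
    rw [sum_mul_eq_sum_image q X (fun s => law p X s / law q X s)]
    have h1 : ∑ s ∈ univ.image X, law p X s = 1 := by rw [sum_law, hp.sum_one]
    rw [← h1]
    refine Finset.sum_le_sum fun s _ => ?_
    rcases (law_nonneg hq X s).eq_or_lt with h2 | h2
    · rw [← h2]
      simpa using law_nonneg hp.nonneg X s
    · rw [mul_div_cancel₀ _ h2.ne']
  have hB := gibbs_step (f := fun ω => law p X (X ω) / law q X (X ω)) hp hq hpq
      (fun ω h0 => div_pos (law_pos hp.nonneg X h0) (law_pos hq X (hq' ω h0)))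
      (fun ω => div_nonneg (law_nonneg hp.nonneg X _) (law_nonneg hq X _)) one_pos hs
  rw [Real.log_one, zero_add] at hB
  have hC : ∑ ω, p ω * Real.log (law p X (X ω) / law q X (X ω)) =
      ∑ ω, p ω * Real.log (law p X (X ω)) - ∑ ω, p ω * Real.log (law q X (X ω)) := by
    rw [← Finset.sum_sub_distrib]
    refine Finset.sum_congr rfl fun ω _ => ?_
    rcases (hp.nonneg ω).eq_or_lt with h0 | h0
    · simp [← h0]
    · rw [Real.log_div (law_pos hp.nonneg X h0).ne' (law_pos hq X (hq' ω h0)).ne']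
      ring
  rw [hC] at hB
  unfold H
  linarith

end Pool.KAL
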