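import Pool.Agent.H86.LJ.LJB

/-!
# Sums over a finite law with weights `1 / law`
-/

set_option autoImplicit false

namespace Pool.LJ

open Finset Real
open Pool.Agent.H49.Ent Pool.Agent.H32.Dense Pool.STK Pool.KAF

variable {W Z : Type} [Fintype W]

/-- A sum weighted by the inverse of the conditional law of `T` given `Z`. -/
theorem step1 {q : W → ℝ} (hq : ∀ w, 0 ≤ q w) (z : W → Z) (T : W → ℤ) (S : Finset ℤ)
    (hS : ∀ w, 0 < q w → T w ∈ S) (h : Z → ℤ → ℝ) (hh : ∀ a t, 0 ≤ h a t) :
    ∑ w, q w * (law q z (z w) / law q (fun v => (z v, T v)) (z w, T w)) * h (z w) (T w) ≤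
      ∑ w, q w * ∑ t ∈ S, h (z w) t := by
  classical
  have h1 : ∀ w, q w * (law q z (z w) / law q (fun v => (z v, T v)) (z w, T w)) * h (z w) (T w) =
      ∑ t ∈ S, (if T w = t then q w else 0) *
        (law q z (z w) / law q (fun v => (z v, T v)) (z w, t) * h (z w) t) := by
    intro w
    rcases (hq w).eq_or_lt with h0 | h0
    · simp [← h0]
    · rw [Finset.sum_eq_single (T w)]
      · rw [if_pos rfl]
        ring
      · intro t _ ht
        rw [if_neg (Ne.symm ht), zero_mul]
      · intro h2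
        exact absurd (hS w h0) h2
  rw [Finset.sum_congr rfl fun w _ => h1 w, Finset.sum_comm]
  have h2 : ∑ w, q w * ∑ t ∈ S, h (z w) t = ∑ t ∈ S, ∑ w, q w * h (z w) t := by
    rw [Finset.sum_comm]
    exact Finset.sum_congr rfl fun w _ => Finset.mul_sum _ _ _
  rw [h2]
  refine Finset.sum_le_sum fun t _ => ?_
  rw [sum_mul_eq_sum_image (fun w => if T w = t then q w else 0) z
    (fun s => law q z s / law q (fun v => (z v, T v)) (s, t) * h s t),
    sum_mul_eq_sum_image q z (fun s => h s t)]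
  refine Finset.sum_le_sum fun s _ => ?_
  have h3 : law (fun w => if T w = t then q w else 0) z s =
      law q (fun v => (z v, T v)) (s, t) := by
    unfold law
    refine Finset.sum_congr rfl fun w _ => ?_
    by_cases h4 : z w = s <;> by_cases h5 : T w = t <;> simp [h4, h5]
  rw [h3]
  rcases (law_nonneg hq (fun v => (z v, T v)) (s, t)).eq_or_lt with h4 | h4
  · rw [← h4, zero_mul]
    exact mul_nonneg (law_nonneg hq z s) (hh s t)
  · rw [← mul_assoc, mul_div_cancel₀ _ h4.ne']

/-- The same without side information. -/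
theorem step0 {q : W → ℝ} (hq : ∀ w, 0 ≤ q w) (T : W → ℤ) (S : Finset ℤ)
    (hS : ∀ w, 0 < q w → T w ∈ S) (h : ℤ → ℝ) (hh : ∀ t, 0 ≤ h t) :
    ∑ w, q w * (1 / law q T (T w)) * h (T w) ≤ ∑ t ∈ S, h t := by
  classical
  have h1 : ∀ w, q w * (1 / law q T (T w)) * h (T w) = q w * (1 / law q T (T w) * h (T w)) :=
    fun w => by ring
  rw [Finset.sum_congr rfl fun w _ => h1 w,
    sum_mul_eq_sum_image q T (fun s => 1 / law q T s * h s)]
  have h2 : ∀ s ∈ univ.image T, law q T s * (1 / law q T s * h s) ≤ if s ∈ S then h s else 0 := by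
    intro s hs
    rcases (law_nonneg hq T s).eq_or_lt with h4 | h4
    · rw [← h4, zero_mul]
      split_ifs
      exacts [hh s, le_rfl]
    · rw [← mul_assoc, mul_one_div_cancel h4.ne', one_mul]
      have h5 : s ∈ S := by
        by_contra h6
        have h7 : law q T s = 0 := by
          unfold law
          refine Finset.sum_eq_zero fun w _ => ?_
          split_ifs with h8
          · rcases (hq w).eq_or_lt with h9 | h9
            · exact h9.symm
            · exact absurd (h8 ▸ hS w h9) h6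
          · rfl
        exact h4.ne' h7
      rw [if_pos h5]
  refine (Finset.sum_le_sum h2).trans ?_
  rw [← Finset.sum_filter]
  refine Finset.sum_le_sum_of_subset_of_nonneg (fun s hs => ?_) (fun s _ _ => hh s)
  exact (Finset.mem_filter.mp hs).2

/-- The harmonic sum. -/
theorem harm (N : ℕ) : ∑ j ∈ range N, (1 : ℝ) / ((j : ℝ) + 1) ≤ 1 + Real.log N := by
  have h := harmonic_le_one_add_log N
  have h2 : ((harmonic N : ℚ) : ℝ) = ∑ j ∈ range N, (1 : ℝ) / ((j : ℝ) + 1) := by
    unfold harmonic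
    push_cast
    exact Finset.sum_congr rfl fun j _ => by rw [one_div]
  rwa [h2] at h

/-- The harmonic sum over an interval of integers. -/
theorem harmZ (N : ℕ) (hN : 1 ≤ N) (A t : ℤ) (ht : t ∈ Finset.Ico A (A + N)) :
    ∑ s ∈ Finset.Ico A (A + N), (1 : ℝ) / max |(t : ℝ) - s| 1 ≤ 4 * (1 + Real.log N) := by
  classical
  obtain ⟨ht1, ht2⟩ := Finset.mem_Ico.mp ht
  have h1 : ∀ s ∈ Finset.Ico A (A + N), (1 : ℝ) / max |(t : ℝ) - s| 1 =
      (fun k : ℕ => (1 : ℝ) / max (k : ℝ) 1) (t - s).natAbs := by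
    intro s _
    have : |(t : ℝ) - s| = (((t - s).natAbs : ℕ) : ℝ) := by
      rw [Nat.cast_natAbs]
      push_cast
      rfl
    rw [this]
  rw [Finset.sum_congr rfl h1]
  have hmap : ∀ s ∈ Finset.Ico A (A + N), (t - s).natAbs ∈ range N := by
    intro s hs
    obtain ⟨h2, h3⟩ := Finset.mem_Ico.mp hs
    refine Finset.mem_range.mpr ?_
    omega
  rw [← Finset.sum_fiberwise_of_maps_to hmap]
  have h2 : ∀ k ∈ range N, ∑ s ∈ (Finset.Ico A (A + N)).filter (fun s => (t - s).natAbs = k),
      (fun k : ℕ => (1 : ℝ) / max (k : ℝ) 1) (t - s).natAbs ≤ 2 * (1 / max (k : ℝ) 1) := by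
    intro k _
    have h3 : ∀ s ∈ (Finset.Ico A (A + N)).filter (fun s => (t - s).natAbs = k),
        (fun k : ℕ => (1 : ℝ) / max (k : ℝ) 1) (t - s).natAbs = 1 / max (k : ℝ) 1 := by
      intro s hs
      simp only [(Finset.mem_filter.mp hs).2]
    rw [Finset.sum_congr rfl h3, Finset.sum_const, nsmul_eq_mul]
    have h4 : ((Finset.Ico A (A + N)).filter (fun s => (t - s).natAbs = k)).card ≤ 2 := by
      refine (Finset.card_le_card (t := {t - k, t + k}) fun s hs => ?_).trans
        Finset.card_le_two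
      have h5 := (Finset.mem_filter.mp hs).2
      simp only [Finset.mem_insert, Finset.mem_singleton]
      omega
    have h5 : (((Finset.Ico A (A + N)).filter (fun s => (t - s).natAbs = k)).card : ℝ) ≤ 2 := by
      exact_mod_cast h4
    gcongr
  refine (Finset.sum_le_sum h2).trans ?_
  rw [← Finset.mul_sum]
  obtain ⟨n, rfl⟩ : ∃ n, N = n + 1 := ⟨N - 1, by omega⟩
  rw [Finset.sum_range_succ']
  have h3 : ∑ k ∈ range n, (1 : ℝ) / max ((k + 1 : ℕ) : ℝ) 1 = ∑ k ∈ range n, 1 / ((k : ℝ) + 1) := by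
    refine Finset.sum_congr rfl fun k _ => ?_
    push_cast
    rw [max_eq_left (by linarith [Nat.cast_nonneg (α := ℝ) k])]
  rw [h3]
  have h4 := harm n
  have h5 : Real.log n ≤ Real.log ((n + 1 : ℕ) : ℝ) := by
    rcases Nat.eq_zero_or_pos n with h6 | h6
    · subst h6
      simp
    · refine Real.log_le_log (by exact_mod_cast h6) ?_
      push_cast
      linarith
  have h6 : 0 ≤ Real.log ((n + 1 : ℕ) : ℝ) := Real.log_nonneg (by push_cast; linarith [Nat.cast_nonneg (α := ℝ) n])
  have h7 : (1 : ℝ) / max ((0 : ℕ) : ℝ) 1 = 1 := by simp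
  rw [h7]
  linarith

end Pool.LJ
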