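import Pool.Agent.H62.LJ.Stmts
import Pool.Agent.H86.LJ.DVC

/-!
# Row LJA: entropy from the collision energy of a reference measure, on an event
-/

set_option autoImplicit false

namespace Pool.LJ

open Finset Real
open Pool.Agent.H49.Ent Pool.Agent.H32.Dense Pool.STK Pool.KAF Pool.KAL

theorem lja_thm : LJAStmt := by
  classical
  intro A B _ P U x G E hP hU hUs hPU hE hcol
  have hUP : ∀ a, U a = 0 → P a = 0 := fun a h => by
    by_contra h0
    exact (hPU a (lt_of_le_of_ne (hP.nonneg a) (Ne.symm h0))).ne' h
  have hKL : 0 ≤ ∑ a, P a * Real.log (P a / U a) := by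
    have h := gibbs_step (p := P) (q := U) (f := fun _ => 1) (c := 1) hP hU hUP
      (fun _ _ => one_pos) (fun _ => zero_le_one) one_pos (by simpa using hUs)
    simpa [KLd] using h
  have hHx : 0 ≤ H P x := H_nonneg hP.nonneg hP.sum_one x
  set w := Pr P G with hw
  have hw0 : 0 ≤ w := law_nonneg hP.nonneg _ _
  rcases hw0.eq_or_lt with h0 | hwpos
  · rw [← h0]
    linarith
  -- the conditioned law
  set P' := cond P (fun a => a ∈ G) True with hP'
  have hP'law : IsLaw P' := ⟨fun a => cond_nonneg hP.nonneg _ _ a, sum_cond P _ hwpos.ne'⟩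
  have hP'v : ∀ a, P' a = if a ∈ G then P a / w else 0 := by
    intro a
    show Pool.Agent.H49.Ent.cond P (fun a => a ∈ G) True a = _
    unfold Pool.Agent.H49.Ent.cond
    by_cases h : a ∈ G
    · rw [if_pos (eq_true h), if_pos h]
      rfl
    · rw [if_neg (by simp [h]), if_neg h]
  set q : A → ℝ := fun a => if a ∈ G then U a else 0 with hq
  have hq0 : ∀ a, 0 ≤ q a := fun a => by
    simp only [hq]
    split_ifs
    exacts [hU a, le_rfl]
  have hqP : ∀ a, q a = 0 → P' a = 0 := by
    intro a h
    rw [hP'v]
    simp only [hq] at h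
    split_ifs at h ⊢
    · rw [hUP a h, zero_div]
    · rfl
  have hcoll : coll q x ≤ E := by
    refine le_trans (le_of_eq ?_) hcol
    unfold coll law
    refine Finset.sum_congr rfl fun a _ => ?_
    rw [Finset.mul_sum]
    refine Finset.sum_congr rfl fun a' _ => ?_
    simp only [hq]
    by_cases h1 : a ∈ G <;> by_cases h2 : a' ∈ G <;> by_cases h3 : x a = x a' <;>
      simp [h1, h2, h3, eq_comm]
  have hD := dvc0 hP'law hq0 hqP x hE hcoll
  -- the relative entropy
  have hK : w * KLd P' q = ∑ a, (if a ∈ G then P a * Real.log (P a / U a) else 0) -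
      w * Real.log w := by
    have h1 : w = ∑ a, if a ∈ G then P a else 0 := by
      rw [hw]
      unfold Pr law
      refine Finset.sum_congr rfl fun a _ => ?_
      simp
    unfold KLd
    rw [Finset.mul_sum]
    have h2 : w * Real.log w = ∑ a, (if a ∈ G then P a * Real.log w else 0) := by
      have h3 : (∑ a, if a ∈ G then P a else 0) * Real.log w =
          ∑ a, (if a ∈ G then P a * Real.log w else 0) := by
        rw [Finset.sum_mul]
        refine Finset.sum_congr rfl fun a _ => ?_
        split_ifs <;> simp
      rw [← h3, ← h1]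
    rw [h2, ← Finset.sum_sub_distrib]
    refine Finset.sum_congr rfl fun a _ => ?_
    rw [hP'v]
    simp only [hq]
    by_cases h3 : a ∈ G
    · rw [if_pos h3, if_pos h3, if_pos h3, if_pos h3]
      rcases (hP.nonneg a).eq_or_lt with h4 | h4
      · simp [← h4]
      · have h5 := hPU a h4
        rw [show P a / w / U a = P a / U a / w by ring,
          Real.log_div (div_pos h4 h5).ne' hwpos.ne']
        field_simp
    · simp [h3]
  have hKle : w * KLd P' q ≤ ∑ a, P a * Real.log (P a / U a) + 1 := by
    have h1 : ∑ a, P a * Real.log (P a / U a) =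
        ∑ a, (if a ∈ G then P a * Real.log (P a / U a) else 0) +
        ∑ a, (if a ∈ G then 0 else P a * Real.log (P a / U a)) := by
      rw [← Finset.sum_add_distrib]
      refine Finset.sum_congr rfl fun a _ => ?_
      split_ifs <;> simp
    have h2 : (1 - w) - 1 ≤ ∑ a, (if a ∈ G then 0 else P a * Real.log (P a / U a)) := by
      have h3 : ∑ a, (if a ∈ G then 0 else P a) = 1 - w := by
        have : w + ∑ a, (if a ∈ G then 0 else P a) = 1 := by
          rw [hw]
          unfold Pr law
          rw [← Finset.sum_add_distrib, ← hP.sum_one]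
          refine Finset.sum_congr rfl fun a _ => ?_
          by_cases h : a ∈ G <;> simp [h]
        linarith
      have h4 : ∑ a, (if a ∈ G then 0 else U a) ≤ 1 := by
        refine le_trans (Finset.sum_le_sum fun a _ => ?_) hUs
        split_ifs
        exacts [hU a, le_rfl]
      have h5 : ∑ a, ((if a ∈ G then 0 else P a) - (if a ∈ G then 0 else U a)) ≤
          ∑ a, (if a ∈ G then 0 else P a * Real.log (P a / U a)) := by
        refine Finset.sum_le_sum fun a _ => ?_
        by_cases h : a ∈ G
        · simp [h]
        · simp only [h, if_false]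
          rcases (hP.nonneg a).eq_or_lt with h6 | h6
          · simp only [← h6, zero_div, Real.log_zero, mul_zero, zero_sub, Left.neg_nonpos_iff]
            exact hU a
          · have h7 := hPU a h6
            have h8 := Real.log_le_sub_one_of_pos (div_pos h7 h6)
            have h9 : Real.log (P a / U a) = -Real.log (U a / P a) := by
              rw [← Real.log_inv, inv_div]
            rw [h9]
            have h10 : P a * (U a / P a - 1) = U a - P a := by
              field_simp
            nlinarith [mul_le_mul_of_nonneg_left h8 h6.le]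
      rw [Finset.sum_sub_distrib, h3] at h5
      linarith
    have h3 : -(w * Real.log w) ≤ 1 - w := by
      have h4 := Real.log_le_sub_one_of_pos (inv_pos.mpr hwpos)
      rw [Real.log_inv] at h4
      have h5 : w * (w⁻¹ - 1) = 1 - w := by
        field_simp
      nlinarith [mul_le_mul_of_nonneg_left h4 hwpos.le]
    rw [hK]
    linarith
  -- concavity
  have hconc : w * H P' x ≤ H P x := by
    have h1 : CH P x (fun a => a ∈ G) ≤ H P x := by
      have := subadd hP.nonneg hP.sum_one (X := x) (Y := fun a => a ∈ G)
        (W := fun a => (x a, a ∈ G)) (fun _ _ _ _ h => h)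
      unfold CH
      linarith
    refine le_trans ?_ h1
    rw [CH_eq_sum hP.nonneg]
    have h2 : True ∈ univ.image (fun a => a ∈ G) := by
      by_contra h3
      have h4 := law_eq_zero_of_notMem P (fun a => a ∈ G) h3
      exact hwpos.ne' h4
    refine Finset.single_le_sum (f := fun z => law P (fun a => a ∈ G) z *
      H (cond P (fun a => a ∈ G) z) x) (fun z _ => ?_) h2
    rcases (law_nonneg hP.nonneg (fun a => a ∈ G) z).eq_or_lt with h3 | h3
    · simp [← h3]
    · exact mul_nonneg h3.le (H_nonneg (fun a => cond_nonneg hP.nonneg _ _ a)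
        (sum_cond P _ h3.ne') x)
  have h1 : w * (-Real.log E - 2 * KLd P' q) ≤ w * H P' x := by gcongr
  have h2 : Real.log (1 / E) = -Real.log E := by rw [one_div, Real.log_inv]
  rw [h2]
  nlinarith

end Pool.LJ
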