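import Pool.Agent.H62.LJ.Stmts

/-!
# Row LJB: counting pairs of second times
-/

set_option autoImplicit false

namespace Pool.LJ

open Finset Real
open Pool.Agent.H49.Ent Pool.Agent.H32.Dense Pool.STK Pool.KAF

/-- A set of integers in an interval of length `2 b` has at most `2 b + 1` elements. -/
theorem card_closeZ (x b : ℝ) (hb : 0 ≤ b) (s : Finset ℤ)
    (hs : ∀ t ∈ s, |(t : ℝ) - x| ≤ b) : (s.card : ℝ) ≤ 2 * b + 1 := by
  classical
  have h1 : s ⊆ Finset.Icc ⌈x - b⌉ ⌊x + b⌋ := by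
    intro t ht
    have h := abs_le.mp (hs t ht)
    refine Finset.mem_Icc.mpr ⟨Int.ceil_le.mpr ?_, Int.le_floor.mpr ?_⟩
    · linarith [h.1]
    · linarith [h.2]
  have h3 := Finset.card_le_card h1
  rw [Int.card_Icc] at h3
  have h4 : (s.card : ℝ) ≤ ((⌊x + b⌋ + 1 - ⌈x - b⌉).toNat : ℝ) := by exact_mod_cast h3
  refine h4.trans ?_
  rcases le_or_gt (⌊x + b⌋ + 1 - ⌈x - b⌉) 0 with h5 | h5
  · rw [Int.toNat_of_nonpos h5]
    push_cast
    linarith
  · have h6 : ((⌊x + b⌋ + 1 - ⌈x - b⌉).toNat : ℝ) = ((⌊x + b⌋ + 1 - ⌈x - b⌉ : ℤ) : ℝ) := by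
      exact_mod_cast Int.toNat_of_nonneg h5.le
    rw [h6]
    push_cast
    linarith [Int.floor_le (x + b), Int.le_ceil (x - b)]

theorem ljb_thm : LJBStmt := by
  classical
  refine ⟨1000000, by norm_num, ?_⟩
  intro M S a a' d1 d2 α δ κ hM hS hκM hα hα1 hδ hδ1 ha ha' ha6 ha6' hd1 hd2 hd13 hd23
  set F := (S ×ˢ S).filter fun t : ℤ × ℤ => |((t.1 : ℝ) - t.2) * d2 + κ * d1| ≤ 64 ∧
      |(t.1 : ℝ) * d2 * a - t.2 * d2 * a'| ≤ 256 with hF
  have hM1 : (1 : ℝ) ≤ M := by exact_mod_cast hM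
  have hd2pos : 0 < |d2| := lt_of_lt_of_le hδ hd2
  have hd2ne : d2 ≠ 0 := abs_pos.mp hd2pos
  -- the fibres
  have hfib : ∀ t₁ ∈ F.image Prod.fst, (F.filter fun t => t.1 = t₁).card ≤ ⌊129 / δ⌋₊ := by
    intro t₁ _
    have h1 : ((F.filter fun t => t.1 = t₁).image Prod.snd).card =
        (F.filter fun t => t.1 = t₁).card := by
      refine Finset.card_image_of_injOn ?_
      intro u hu v hv huv
      have h2 := (Finset.mem_filter.mp (Finset.mem_coe.mp hu)).2
      have h3 := (Finset.mem_filter.mp (Finset.mem_coe.mp hv)).2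
      exact Prod.ext (h2.trans h3.symm) huv
    rw [← h1]
    refine Nat.le_floor ?_
    have h4 := card_closeZ ((t₁ : ℝ) + κ * d1 / d2) (64 / δ) (by positivity)
      ((F.filter fun t => t.1 = t₁).image Prod.snd) (fun t₂ ht₂ => by
        obtain ⟨t, ht, rfl⟩ := Finset.mem_image.mp ht₂
        have h5 := Finset.mem_filter.mp ht
        have h6 := (Finset.mem_filter.mp h5.1).2.1
        have h7 : (t.2 : ℝ) - ((t₁ : ℝ) + κ * d1 / d2) =
            -((((t.1 : ℝ) - t.2) * d2 + κ * d1) / d2) := by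
          rw [← h5.2]
          field_simp
          ring
        rw [h7, abs_neg, abs_div]
        calc _ ≤ 64 / |d2| := by gcongr
          _ ≤ 64 / δ := by gcongr)
    have h8 : 1 ≤ 1 / δ := by rw [le_div_iff₀ hδ]; linarith
    have h9 : 2 * (64 / δ) + 1 ≤ 129 / δ := by
      have : 129 / δ = 2 * (64 / δ) + 1 / δ := by ring
      linarith
    linarith
  have hcard := Finset.card_le_mul_card_image F ⌊129 / δ⌋₊ hfib
  have hcard' : (F.card : ℝ) ≤ 129 / δ * ((F.image Prod.fst).card : ℝ) := by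
    have h1 : (F.card : ℝ) ≤ (⌊129 / δ⌋₊ : ℝ) * ((F.image Prod.fst).card : ℝ) := by
      exact_mod_cast hcard
    refine h1.trans ?_
    gcongr
    exact Nat.floor_le (by positivity)
  refine hcard'.trans ?_
  have hmax : 0 < max |κ| 1 := lt_of_lt_of_le one_pos (le_max_right _ _)
  rcases lt_or_ge |κ| (1280 / (δ * α)) with h1 | h1
  · -- trivial count
    have h2 : ((F.image Prod.fst).card : ℝ) ≤ 2 * M + 1 := by
      refine card_closeZ 0 M (by positivity) _ (fun t ht => ?_)
      obtain ⟨u, hu, rfl⟩ := Finset.mem_image.mp ht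
      have h3 := (Finset.mem_filter.mp hu).1
      have h4 := hS u.1 (Finset.mem_product.mp h3).1
      simpa using h4
    have h3 : max |κ| 1 ≤ 1280 / (δ * α) := by
      refine max_le h1.le ?_
      rw [le_div_iff₀ (by positivity)]
      nlinarith
    have h4 : 129 / δ * ((F.image Prod.fst).card : ℝ) ≤ 387 * M / δ := by
      have h5 : ((F.image Prod.fst).card : ℝ) ≤ 3 * M := by linarith
      calc _ ≤ 129 / δ * (3 * M) := by gcongr
        _ = _ := by ring
    refine h4.trans ?_
    rw [div_le_div_iff₀ hδ (by positivity)]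
    have h6 : max |κ| 1 * (δ * α) ≤ 1280 := by
      rwa [le_div_iff₀ (by positivity)] at h3
    have h7 : 387 * (M : ℝ) * (α * δ ^ 3 * max |κ| 1) =
        387 * M * δ ^ 2 * (max |κ| 1 * (δ * α)) := by ring
    rw [h7]
    calc 387 * (M : ℝ) * δ ^ 2 * (max |κ| 1 * (δ * α)) ≤ 387 * M * δ ^ 2 * 1280 := by gcongr
      _ = 495360 * M * (δ * δ) := by ring
      _ ≤ 495360 * M * (δ * 1) := by gcongr
      _ ≤ 1000000 * M * δ := by nlinarith [mul_pos (lt_of_lt_of_le one_pos hM1) hδ]
  · -- `κ` is large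
    have hκ1 : 1280 ≤ |κ| := by
      refine le_trans ?_ h1
      rw [le_div_iff₀ (by positivity)]
      nlinarith
    have hκ0 : 0 < |κ| := by linarith
    have hmaxκ : max |κ| 1 = |κ| := max_eq_left (by linarith)
    rw [hmaxκ]
    have hbig : 1280 ≤ |κ| * (δ * α) := by
      rwa [div_le_iff₀ (by positivity)] at h1
    have hkd : |κ| * (δ * α) ≤ |κ * d1 * a'| := by
      rw [abs_mul, abs_mul, mul_assoc]
      gcongr
    -- the relation for the first time
    have hrel : ∀ t ∈ F, |(t.1 : ℝ) * (d2 * (a - a')) - κ * d1 * a'| ≤ 640 := by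
      intro t ht
      obtain ⟨h2, h3⟩ := (Finset.mem_filter.mp ht).2
      have h4 : (t.1 : ℝ) * (d2 * (a - a')) - κ * d1 * a' =
          ((t.1 : ℝ) * d2 * a - t.2 * d2 * a') - (((t.1 : ℝ) - t.2) * d2 + κ * d1) * a' := by
        ring
      rw [h4]
      have h5 : |(((t.1 : ℝ) - t.2) * d2 + κ * d1) * a'| ≤ 64 * 6 := by
        rw [abs_mul]
        gcongr
      have h6 := abs_sub ((t.1 : ℝ) * d2 * a - t.2 * d2 * a')
        ((((t.1 : ℝ) - t.2) * d2 + κ * d1) * a')
      linarith
    rcases Finset.eq_empty_or_nonempty F with h2 | ⟨t0, ht0⟩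
    · rw [h2]
      simp only [Finset.image_empty, Finset.card_empty, Nat.cast_zero, mul_zero]
      positivity
    · have h3 := hrel t0 ht0
      have h4 : |κ| * (δ * α) / 2 ≤ |(t0.1 : ℝ) * (d2 * (a - a'))| := by
        have h5 : |κ * d1 * a'| ≤ |(t0.1 : ℝ) * (d2 * (a - a')) - κ * d1 * a'| +
            |(t0.1 : ℝ) * (d2 * (a - a'))| := by
          have h6 := abs_sub ((t0.1 : ℝ) * (d2 * (a - a')))
            ((t0.1 : ℝ) * (d2 * (a - a')) - κ * d1 * a')
          rw [sub_sub_cancel] at h6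
          linarith
        linarith
      have ht0M : |(t0.1 : ℝ)| ≤ M := hS t0.1 (Finset.mem_product.mp (Finset.mem_filter.mp ht0).1).1
      have h5 : |κ| * (δ * α) / (2 * M) ≤ |d2 * (a - a')| := by
        rw [div_le_iff₀ (by positivity)]
        rw [abs_mul] at h4
        have : |(t0.1 : ℝ)| * |d2 * (a - a')| ≤ M * |d2 * (a - a')| := by gcongr
        nlinarith
      have h6 : 0 < |d2 * (a - a')| := lt_of_lt_of_le (by positivity) h5
      have h7 : d2 * (a - a') ≠ 0 := abs_pos.mp h6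
      have h8 := card_closeZ (κ * d1 * a' / (d2 * (a - a'))) (640 / |d2 * (a - a')|)
        (by positivity) (F.image Prod.fst) (fun t ht => by
          obtain ⟨u, hu, rfl⟩ := Finset.mem_image.mp ht
          have h9 := hrel u hu
          have h10 : (u.1 : ℝ) - κ * d1 * a' / (d2 * (a - a')) =
              ((u.1 : ℝ) * (d2 * (a - a')) - κ * d1 * a') / (d2 * (a - a')) := by
            rw [sub_div, mul_div_cancel_right₀ _ h7]
          rw [h10, abs_div]
          gcongr)
      have h9 : 640 / |d2 * (a - a')| ≤ 1280 * M / (|κ| * (δ * α)) := by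
        rw [div_le_div_iff₀ h6 (by positivity)]
        rw [div_le_iff₀ (by positivity)] at h5
        nlinarith
      have h10 : (1 : ℝ) ≤ 2 * M / (|κ| * (δ * α)) := by
        rw [le_div_iff₀ (by positivity)]
        have : |κ| * (δ * α) ≤ |κ| * 1 := by
          gcongr
          nlinarith
        linarith
      have h11 : ((F.image Prod.fst).card : ℝ) ≤ 2562 * M / (|κ| * (δ * α)) := by
        have : 2562 * (M : ℝ) / (|κ| * (δ * α)) =
            2 * (1280 * M / (|κ| * (δ * α))) + 2 * M / (|κ| * (δ * α)) := by ring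
        linarith
      calc 129 / δ * ((F.image Prod.fst).card : ℝ) ≤
          129 / δ * (2562 * M / (|κ| * (δ * α))) := by gcongr
        _ = 330498 * M / (α * δ ^ 2 * |κ|) := by
          field_simp
          ring
        _ ≤ 1000000 * M / (α * δ ^ 3 * |κ|) := by
          have h12 : α * δ ^ 3 * |κ| ≤ α * δ ^ 2 * |κ| := by
            have : δ ^ 3 ≤ δ ^ 2 := pow_le_pow_of_le_one hδ.le hδ1 (by norm_num)
            gcongr
          gcongr
          · linarith

end Pool.LJ
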