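import Pool.Agent.H86.LJ.LJA
import Pool.Agent.H86.LJ.Fib

/-!
# Row LJC: two steps of the walk
-/

set_option autoImplicit false

namespace Pool.LJ

open Finset Real
open Pool.Agent.H49.Ent Pool.Agent.H32.Dense Pool.STK Pool.KAF Pool.KAL

section core

variable {W : Type} [Fintype W]

/-- The relation between two samples in the event with the same end point. -/
def near (f d1 d2 α : ℝ) (M : ℕ) (z : ℤ × ℝ) (t : ℤ) (z' : ℤ × ℝ) (t' : ℤ) : Prop :=
  (α ≤ |z.2 - f| ∧ α ≤ |z'.2 - f| ∧ |z.2 - f| ≤ 6 ∧ |z'.2 - f| ≤ 6 ∧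
    |(z.1 : ℝ) - z'.1| ≤ 2 * M) ∧
  (|((t : ℝ) - t') * d2 + ((z.1 : ℝ) - z'.1) * d1| ≤ 64 ∧
    |(t : ℝ) * d2 * (z.2 - f) - t' * d2 * (z'.2 - f)| ≤ 256)

open Classical in
theorem near_count {C : ℝ} (hC : 1 ≤ C)
    (hB : ∀ (M : ℕ) (S : Finset ℤ) (a a' d1 d2 α δ κ : ℝ), 1 ≤ M →
    (∀ t ∈ S, |(t : ℝ)| ≤ M) → |κ| ≤ 2 * M → 0 < α → α ≤ 1 → 0 < δ → δ ≤ 1 → α ≤ |a| →
    α ≤ |a'| → |a| ≤ 6 → |a'| ≤ 6 → δ ≤ |d1| → δ ≤ |d2| → |d1| ≤ 3 → |d2| ≤ 3 →
    (((S ×ˢ S).filter fun t : ℤ × ℤ => |((t.1 : ℝ) - t.2) * d2 + κ * d1| ≤ 64 ∧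
      |(t.1 : ℝ) * d2 * a - t.2 * d2 * a'| ≤ 256).card : ℝ) ≤
        C * M / (α * δ ^ 3 * max |κ| 1))
    {M : ℕ} {S : Finset ℤ} {f d1 d2 α δ : ℝ} (hM : 1 ≤ M) (hS : ∀ t ∈ S, |(t : ℝ)| ≤ M)
    (hα : 0 < α) (hα1 : α ≤ 1) (hδ : 0 < δ) (hδ1 : δ ≤ 1) (hd1 : δ ≤ |d1|) (hd2 : δ ≤ |d2|)
    (hd13 : |d1| ≤ 3) (hd23 : |d2| ≤ 3) (z z' : ℤ × ℝ) :
    ∑ t ∈ S, ∑ t' ∈ S, (if near f d1 d2 α M z t z' t' then (1 : ℝ) else 0) ≤
      C * M / (α * δ ^ 3) * (1 / max |(z.1 : ℝ) - z'.1| 1) := by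
  have hpos : 0 < max |(z.1 : ℝ) - z'.1| 1 := lt_of_lt_of_le one_pos (le_max_right _ _)
  by_cases h : α ≤ |z.2 - f| ∧ α ≤ |z'.2 - f| ∧ |z.2 - f| ≤ 6 ∧ |z'.2 - f| ≤ 6 ∧
    |(z.1 : ℝ) - z'.1| ≤ 2 * M
  · have h1 := hB M S (z.2 - f) (z'.2 - f) d1 d2 α δ ((z.1 : ℝ) - z'.1) hM hS h.2.2.2.2 hα hα1
      hδ hδ1 h.1 h.2.1 h.2.2.1 h.2.2.2.1 hd1 hd2 hd13 hd23
    have h2 : ∑ t ∈ S, ∑ t' ∈ S, (if near f d1 d2 α M z t z' t' then (1 : ℝ) else 0) =
        (((S ×ˢ S).filter fun t : ℤ × ℤ =>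
          |((t.1 : ℝ) - t.2) * d2 + ((z.1 : ℝ) - z'.1) * d1| ≤ 64 ∧
          |(t.1 : ℝ) * d2 * (z.2 - f) - t.2 * d2 * (z'.2 - f)| ≤ 256).card : ℝ) := by
      rw [← Finset.sum_product' S S fun t t' =>
        (if near f d1 d2 α M z t z' t' then (1 : ℝ) else 0)]
      rw [Finset.sum_ite, Finset.sum_const_zero, add_zero, Finset.sum_const, nsmul_eq_mul, mul_one]
      congr 2
      refine Finset.filter_congr fun t _ => ?_
      unfold near
      simp only [h, true_and, and_self]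
    rw [h2]
    refine h1.trans (le_of_eq ?_)
    field_simp
  · have h2 : ∑ t ∈ S, ∑ t' ∈ S, (if near f d1 d2 α M z t z' t' then (1 : ℝ) else 0) = 0 := by
      refine Finset.sum_eq_zero fun t _ => Finset.sum_eq_zero fun t' _ => ?_
      rw [if_neg]
      exact fun hn => h hn.1
    rw [h2]
    positivity

/-- The reference measure. -/
noncomputable def Uw (q : W → ℝ) (T1 T2 : W → ℤ) (R : W → ℝ) (N : ℕ) (w : W) : ℝ :=
  q w * (1 / (N * law q T1 (T1 w))) * (1 / N) * (law q (fun v => (T1 v, R v)) (T1 w, R w) /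
    law q (fun v => ((T1 v, R v), T2 v)) ((T1 w, R w), T2 w))

variable {q : W → ℝ} {T1 T2 : W → ℤ} {R : W → ℝ} {N : ℕ}

theorem Uw_nonneg (hq : ∀ w, 0 ≤ q w) (w : W) : 0 ≤ Uw q T1 T2 R N w := by
  unfold Uw
  have h1 := hq w
  have h2 := law_nonneg hq T1 (T1 w)
  have h3 := law_nonneg hq (fun v => (T1 v, R v)) (T1 w, R w)
  have h4 := law_nonneg hq (fun v => ((T1 v, R v), T2 v)) ((T1 w, R w), T2 w)
  positivity

theorem Uw_pos (hq : ∀ w, 0 ≤ q w) (hN : 1 ≤ N) {w : W} (h1 : 0 < q w) :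
    0 < Uw q T1 T2 R N w := by
  unfold Uw
  have hN' : (0 : ℝ) < N := by exact_mod_cast hN
  have h2 := law_pos hq T1 h1
  have h3 := law_pos hq (fun v => (T1 v, R v)) h1
  have h4 := law_pos hq (fun v => ((T1 v, R v), T2 v)) h1
  positivity

theorem Uw_sum (hq : IsLaw q) (hN : 1 ≤ N) {A1 A2 : ℤ}
    (h1 : ∀ w, 0 < q w → T1 w ∈ Finset.Ico A1 (A1 + N))
    (h2 : ∀ w, 0 < q w → T2 w ∈ Finset.Ico A2 (A2 + N)) :
    ∑ w, Uw q T1 T2 R N w ≤ 1 := by
  have hN' : (0 : ℝ) < N := by exact_mod_cast hN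
  have e1 : ∀ w, Uw q T1 T2 R N w = q w * (law q (fun v => (T1 v, R v)) (T1 w, R w) /
    law q (fun v => ((T1 v, R v), T2 v)) ((T1 w, R w), T2 w)) *
    (fun (a : ℤ × ℝ) (_ : ℤ) => 1 / (N * law q T1 a.1) * (1 / N)) (T1 w, R w) (T2 w) := by
    intro w
    unfold Uw
    ring
  rw [Finset.sum_congr rfl fun w _ => e1 w]
  refine (step1 hq.nonneg (fun v => (T1 v, R v)) T2 _ h2
    (fun (a : ℤ × ℝ) (_ : ℤ) => 1 / (N * law q T1 a.1) * (1 / N)) (fun a _ => by
      have := law_nonneg hq.nonneg T1 a.1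
      positivity)).trans ?_
  have e2 : ∀ w, q w * ∑ t ∈ Finset.Ico A2 (A2 + N),
      (fun (a : ℤ × ℝ) (_ : ℤ) => 1 / (N * law q T1 a.1) * (1 / N)) (T1 w, R w) t =
      q w * (1 / law q T1 (T1 w)) * (fun _ : ℤ => (1 : ℝ) / N) (T1 w) := by
    intro w
    simp only [Finset.sum_const, Int.card_Ico, nsmul_eq_mul]
    have : ((A2 + (N : ℤ) - A2).toNat : ℝ) = N := by
      rw [add_sub_cancel_left, Int.toNat_natCast]
    rw [this]
    field_simp
  rw [Finset.sum_congr rfl fun w _ => e2 w]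
  refine (step0 hq.nonneg T1 _ h1 (fun _ => (1 : ℝ) / N) (fun _ => by positivity)).trans ?_
  simp only [Finset.sum_const, Int.card_Ico, nsmul_eq_mul]
  have : ((A1 + (N : ℤ) - A1).toNat : ℝ) = N := by
    rw [add_sub_cancel_left, Int.toNat_natCast]
  rw [this, mul_one_div_cancel hN'.ne']

theorem Uw_KL (hq : IsLaw q) (hN : 1 ≤ N) :
    ∑ w, q w * Real.log (q w / Uw q T1 T2 R N w) = 2 * Real.log N - H q T1 -
      H q (fun v => ((T1 v, R v), T2 v)) + H q (fun v => (T1 v, R v)) := by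
  have hN' : (0 : ℝ) < N := by exact_mod_cast hN
  have e1 : ∀ w, q w * Real.log (q w / Uw q T1 T2 R N w) = q w * (2 * Real.log N) +
      q w * Real.log (law q T1 (T1 w)) +
      q w * Real.log (law q (fun v => ((T1 v, R v), T2 v)) ((T1 w, R w), T2 w)) -
      q w * Real.log (law q (fun v => (T1 v, R v)) (T1 w, R w)) := by
    intro w
    rcases (hq.nonneg w).eq_or_lt with h0 | h0
    · simp [← h0]
    · have h2 := law_pos hq.nonneg T1 h0
      have h3 := law_pos hq.nonneg (fun v => (T1 v, R v)) h0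
      have h4 := law_pos hq.nonneg (fun v => ((T1 v, R v), T2 v)) h0
      have h5 : q w / Uw q T1 T2 R N w = N * N * law q T1 (T1 w) *
          law q (fun v => ((T1 v, R v), T2 v)) ((T1 w, R w), T2 w) /
          law q (fun v => (T1 v, R v)) (T1 w, R w) := by
        unfold Uw
        field_simp
      rw [h5, Real.log_div (by positivity) h3.ne', Real.log_mul (by positivity) h4.ne',
        Real.log_mul (by positivity) h2.ne', Real.log_mul hN'.ne' hN'.ne']
      ring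
  rw [Finset.sum_congr rfl fun w _ => e1 w, Finset.sum_sub_distrib, Finset.sum_add_distrib,
    Finset.sum_add_distrib, ← Finset.sum_mul, hq.sum_one]
  unfold H
  ring

open Classical in
theorem Uw_energy (hq : IsLaw q) (hN : 1 ≤ N) {A1 A2 : ℤ}
    (h1 : ∀ w, 0 < q w → T1 w ∈ Finset.Ico A1 (A1 + N))
    (h2 : ∀ w, 0 < q w → T2 w ∈ Finset.Ico A2 (A2 + N)) {B : ℝ} (hB : 0 ≤ B)
    (nr : ℤ × ℝ → ℤ → ℤ × ℝ → ℤ → Prop)
    (hc : ∀ z z' : ℤ × ℝ, ∑ t ∈ Finset.Ico A2 (A2 + N), ∑ t' ∈ Finset.Ico A2 (A2 + N),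
      (if nr z t z' t' then (1 : ℝ) else 0) ≤ B * (1 / max |(z.1 : ℝ) - z'.1| 1)) :
    ∑ w, ∑ w', (if nr (T1 w, R w) (T2 w) (T1 w', R w') (T2 w') then
      Uw q T1 T2 R N w * Uw q T1 T2 R N w' else 0) ≤ B * (4 * (1 + Real.log N)) / N ^ 3 := by
  have hN' : (0 : ℝ) < N := by exact_mod_cast hN
  set S1 := Finset.Ico A1 (A1 + (N : ℤ)) with hS1
  set S2 := Finset.Ico A2 (A2 + (N : ℤ)) with hS2
  set z : W → ℤ × ℝ := fun v => (T1 v, R v) with hz
  set ρ : W → ℝ := fun w => law q z (z w) / law q (fun v => (z v, T2 v)) (z w, T2 w) with hρ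
  set g : ℤ × ℝ → ℝ := fun a => 1 / (N * law q T1 a.1) * (1 / N) with hg
  have hg0 : ∀ a, 0 ≤ g a := fun a => by
    have := law_nonneg hq.nonneg T1 a.1
    simp only [hg]
    positivity
  have hρ0 : ∀ w, 0 ≤ ρ w := fun w => by
    have h3 := law_nonneg hq.nonneg z (z w)
    have h4 := law_nonneg hq.nonneg (fun v => (z v, T2 v)) (z w, T2 w)
    simp only [hρ]
    positivity
  have hU : ∀ w, Uw q T1 T2 R N w = q w * ρ w * g (z w) := fun w => by
    simp only [Uw, hρ, hg, hz]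
    ring
  -- first copy
  have hA : ∀ w, ∑ w', (if nr (z w) (T2 w) (z w') (T2 w') then
      Uw q T1 T2 R N w * Uw q T1 T2 R N w' else 0) ≤
      q w * ρ w * (g (z w) * ∑ w', q w' * ∑ t' ∈ S2,
        g (z w') * (if nr (z w) (T2 w) (z w') t' then (1 : ℝ) else 0)) := by
    intro w
    have e1 : ∀ w', (if nr (z w) (T2 w) (z w') (T2 w') then
        Uw q T1 T2 R N w * Uw q T1 T2 R N w' else 0) = (q w * ρ w * g (z w)) *
        (q w' * ρ w' * (fun (a : ℤ × ℝ) (t : ℤ) =>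
          g a * (if nr (z w) (T2 w) a t then (1 : ℝ) else 0)) (z w') (T2 w')) := by
      intro w'
      rw [hU, hU]
      split_ifs with h3
      · simp only [h3, if_true]
        ring
      · simp only [h3, if_false]
        ring
    have e3 : q w * ρ w * (g (z w) * ∑ w', q w' * ∑ t' ∈ S2,
        g (z w') * (if nr (z w) (T2 w) (z w') t' then (1 : ℝ) else 0)) =
        (q w * ρ w * g (z w)) * ∑ w', q w' * ∑ t' ∈ S2,
        g (z w') * (if nr (z w) (T2 w) (z w') t' then (1 : ℝ) else 0) := by ring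
    rw [Finset.sum_congr rfl fun w' _ => e1 w', ← Finset.mul_sum, e3]
    refine mul_le_mul_of_nonneg_left ?_ (mul_nonneg (mul_nonneg (hq.nonneg w) (hρ0 w)) (hg0 _))
    exact step1 hq.nonneg z T2 S2 h2 (fun (a : ℤ × ℝ) (t : ℤ) =>
      g a * (if nr (z w) (T2 w) a t then (1 : ℝ) else 0)) (fun a t => by
        have := hg0 a
        split_ifs <;> simp [this])
  refine (Finset.sum_le_sum fun w _ => hA w).trans ?_
  -- second copy
  refine (step1 hq.nonneg z T2 S2 h2 (fun (a : ℤ × ℝ) (t : ℤ) => g a * ∑ w', q w' *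
    ∑ t' ∈ S2, g (z w') * (if nr a t (z w') t' then (1 : ℝ) else 0)) (fun a t => by
      refine mul_nonneg (hg0 a) (Finset.sum_nonneg fun w' _ => mul_nonneg (hq.nonneg w')
        (Finset.sum_nonneg fun t' _ => ?_))
      have := hg0 (z w')
      split_ifs <;> simp [this])).trans ?_
  -- the count
  have hC : ∀ w, q w * ∑ t ∈ S2, (fun (a : ℤ × ℝ) (t : ℤ) => g a * ∑ w', q w' *
      ∑ t' ∈ S2, g (z w') * (if nr a t (z w') t' then (1 : ℝ) else 0)) (z w) t ≤
      q w * (1 / law q T1 (T1 w)) * (fun s : ℤ => ∑ w', q w' * (1 / law q T1 (T1 w')) *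
        (fun s' : ℤ => B / N ^ 4 * (1 / max |(s : ℝ) - s'| 1)) (T1 w')) (T1 w) := by
    intro w
    have e1 : q w * ∑ t ∈ S2, (fun (a : ℤ × ℝ) (t : ℤ) => g a * ∑ w', q w' *
        ∑ t' ∈ S2, g (z w') * (if nr a t (z w') t' then (1 : ℝ) else 0)) (z w) t =
        q w * g (z w) * ∑ w', q w' * g (z w') * ∑ t ∈ S2, ∑ t' ∈ S2,
          (if nr (z w) t (z w') t' then (1 : ℝ) else 0) := by
      simp only [Finset.mul_sum]
      rw [Finset.sum_comm]
      refine Finset.sum_congr rfl fun w' _ => Finset.sum_congr rfl fun t _ =>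
        Finset.sum_congr rfl fun t' _ => ?_
      ring
    rw [e1]
    have e2 : q w * (1 / law q T1 (T1 w)) * (fun s : ℤ => ∑ w', q w' *
        (1 / law q T1 (T1 w')) *
        (fun s' : ℤ => B / N ^ 4 * (1 / max |(s : ℝ) - s'| 1)) (T1 w')) (T1 w) =
        q w * g (z w) * ∑ w', q w' * g (z w') * (B * (1 / max |((z w).1 : ℝ) - (z w').1| 1)) := by
      simp only [Finset.mul_sum]
      refine Finset.sum_congr rfl fun w' _ => ?_
      simp only [hg, hz]
      field_simp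
    rw [e2]
    refine mul_le_mul_of_nonneg_left (Finset.sum_le_sum fun w' _ => ?_)
      (mul_nonneg (hq.nonneg w) (hg0 _))
    exact mul_le_mul_of_nonneg_left (hc (z w) (z w')) (mul_nonneg (hq.nonneg w') (hg0 _))
  refine (Finset.sum_le_sum fun w _ => hC w).trans ?_
  have hD : ∀ w, q w * (1 / law q T1 (T1 w)) * (fun s : ℤ => ∑ w', q w' *
      (1 / law q T1 (T1 w')) *
      (fun s' : ℤ => B / N ^ 4 * (1 / max |(s : ℝ) - s'| 1)) (T1 w')) (T1 w) ≤
      q w * (1 / law q T1 (T1 w)) * (fun s : ℤ => ∑ s' ∈ S1,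
        B / N ^ 4 * (1 / max |(s : ℝ) - s'| 1)) (T1 w) := by
    intro w
    refine mul_le_mul_of_nonneg_left ?_ (mul_nonneg (hq.nonneg w)
      (one_div_nonneg.mpr (law_nonneg hq.nonneg _ _)))
    exact step0 hq.nonneg T1 S1 h1 (fun s' : ℤ => B / N ^ 4 * (1 / max |((T1 w : ℤ) : ℝ) - s'| 1))
      (fun s' => by positivity)
  refine (Finset.sum_le_sum fun w _ => hD w).trans ?_
  refine (step0 hq.nonneg T1 S1 h1 (fun s : ℤ => ∑ s' ∈ S1,
        B / N ^ 4 * (1 / max |(s : ℝ) - s'| 1)) (fun s => Finset.sum_nonneg fun s' _ => by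
          positivity)).trans ?_
  have hE : ∀ s ∈ S1, ∑ s' ∈ S1, B / N ^ 4 * (1 / max |(s : ℝ) - s'| 1) ≤
      B / N ^ 4 * (4 * (1 + Real.log N)) := by
    intro s hs
    rw [← Finset.mul_sum]
    exact mul_le_mul_of_nonneg_left (harmZ N hN A1 s hs) (by positivity)
  refine (Finset.sum_le_sum hE).trans ?_
  rw [Finset.sum_const, Int.card_Ico, nsmul_eq_mul]
  have : ((A1 + (N : ℤ) - A1).toNat : ℝ) = N := by
    rw [add_sub_cancel_left, Int.toNat_natCast]
  rw [this]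
  refine le_of_eq ?_
  field_simp

end core

open Classical in
theorem ljc_core {C : ℝ} (hC : 1 ≤ C)
    (hB : ∀ (M : ℕ) (S : Finset ℤ) (a a' d1 d2 α δ κ : ℝ), 1 ≤ M →
    (∀ t ∈ S, |(t : ℝ)| ≤ M) → |κ| ≤ 2 * M → 0 < α → α ≤ 1 → 0 < δ → δ ≤ 1 → α ≤ |a| →
    α ≤ |a'| → |a| ≤ 6 → |a'| ≤ 6 → δ ≤ |d1| → δ ≤ |d2| → |d1| ≤ 3 → |d2| ≤ 3 →
    (((S ×ˢ S).filter fun t : ℤ × ℤ => |((t.1 : ℝ) - t.2) * d2 + κ * d1| ≤ 64 ∧
      |(t.1 : ℝ) * d2 * a - t.2 * d2 * a'| ≤ 256).card : ℝ) ≤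
        C * M / (α * δ ^ 3 * max |κ| 1))
    {W : Type} [Fintype W] {q : W → ℝ} {T1 T2 x1 x2 : W → ℤ} {R : W → ℝ}
    {f d1 d2 y0 n0 : ℝ} {A1 A2 : ℤ} {G : Set W} {M N : ℕ} {α δ : ℝ}
    (hq : IsLaw q) (hN : 1 ≤ N) (hNM : N ≤ M) (hα : 0 < α) (hα1 : α ≤ 1) (hδ : 0 < δ)
    (hδ1 : δ ≤ 1)
    (hT : ∀ w, 0 < q w → A1 ≤ T1 w ∧ T1 w < A1 + N ∧ A2 ≤ T2 w ∧
      T2 w < A2 + N ∧ -(M : ℤ) ≤ A2 ∧ A2 + N ≤ M + 1)
    (hR : ∀ w, 0 < q w → |f| ≤ 3 ∧ |d1| ≤ 3 ∧ |d2| ≤ 3 ∧ |R w| ≤ 3)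
    (hx : ∀ w, 0 < q w → |(x1 w : ℝ) - (y0 + T1 w * d1 + T2 w * d2)| ≤ 32 ∧
      |(x2 w : ℝ) - (n0 + T1 w * d1 * f + T2 w * d2 * R w)| ≤ 32)
    (hG : ∀ w ∈ G, 0 < q w → α ≤ |R w - f| ∧ δ ≤ |d1| ∧ δ ≤ |d2|) :
    Pr q G * (3 * Real.log N - Real.log M - Real.log (4 * C * (1 + Real.log M) / (α * δ ^ 3))) -
      2 * (2 * Real.log N - H q T1 - H q (fun v => ((T1 v, R v), T2 v)) +
        H q (fun v => (T1 v, R v))) - 3 ≤ H q (fun w => (x1 w, x2 w)) := by
  have hN' : (0 : ℝ) < N := by exact_mod_cast hN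
  have hM : 1 ≤ M := hN.trans hNM
  have hM' : (0 : ℝ) < M := by exact_mod_cast hM
  have hlM : 0 ≤ Real.log M := Real.log_nonneg (by exact_mod_cast hM)
  set E : ℝ := 4 * C * M * (1 + Real.log M) / (α * δ ^ 3 * N ^ 3) with hE
  have hEpos : 0 < E := by positivity
  have hS1 : ∀ w, 0 < q w → T1 w ∈ Finset.Ico A1 (A1 + (N : ℤ)) := fun w h =>
    Finset.mem_Ico.mpr ⟨(hT w h).1, (hT w h).2.1⟩
  have hS2 : ∀ w, 0 < q w → T2 w ∈ Finset.Ico A2 (A2 + (N : ℤ)) := fun w h =>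
    Finset.mem_Ico.mpr ⟨(hT w h).2.2.1, (hT w h).2.2.2.1⟩
  have hen : (∑ w, ∑ w', if w ∈ G ∧ w' ∈ G ∧ (x1 w, x2 w) = (x1 w', x2 w') then
      Uw q T1 T2 R N w * Uw q T1 T2 R N w' else 0) ≤ E := by
    by_cases hGn : ∃ w0 ∈ G, 0 < q w0
    · obtain ⟨w0, hw0G, hw0⟩ := hGn
      obtain ⟨_, hd1, hd2⟩ := hG w0 hw0G hw0
      obtain ⟨hf3, hd13, hd23, _⟩ := hR w0 hw0
      obtain ⟨_, _, _, _, hA2, hA2'⟩ := hT w0 hw0
      have hS : ∀ t ∈ Finset.Ico A2 (A2 + (N : ℤ)), |(t : ℝ)| ≤ M := by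
        intro t ht
        obtain ⟨h1, h2⟩ := Finset.mem_Ico.mp ht
        rw [abs_le]
        constructor
        · have : -(M : ℤ) ≤ t := by omega
          exact_mod_cast this
        · have : t ≤ (M : ℤ) := by omega
          exact_mod_cast this
      have h3 := Uw_energy (R := R) hq hN hS1 hS2 (B := C * M / (α * δ ^ 3)) (by positivity)
        (near f d1 d2 α M) (fun z z' => near_count hC hB hM hS hα hα1 hδ hδ1 hd1 hd2 hd13 hd23 z z')
      refine (Finset.sum_le_sum fun w _ => Finset.sum_le_sum fun w' _ => ?_).trans (h3.trans ?_)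
      · -- same end point implies near
        have hU0 := Uw_nonneg (T1 := T1) (T2 := T2) (R := R) (N := N) hq.nonneg
        by_cases h4 : w ∈ G ∧ w' ∈ G ∧ (x1 w, x2 w) = (x1 w', x2 w')
        · rw [if_pos h4]
          obtain ⟨hwG, hw'G, hxx⟩ := h4
          rcases (hq.nonneg w).eq_or_lt with h5 | h5
          · have : Uw q T1 T2 R N w = 0 := by unfold Uw; rw [← h5]; ring
            rw [this]
            split_ifs <;> simp
          rcases (hq.nonneg w').eq_or_lt with h6 | h6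
          · have : Uw q T1 T2 R N w' = 0 := by unfold Uw; rw [← h6]; ring
            rw [this]
            split_ifs <;> simp
          rw [if_pos]
          obtain ⟨hx1, hx2⟩ := Prod.mk.inj hxx
          have a1 := (hx w h5).1
          have a2 := (hx w h5).2
          have b1 := (hx w' h6).1
          have b2 := (hx w' h6).2
          rw [← hx1] at b1
          rw [← hx2] at b2
          have r1 := (hR w h5).2.2.2
          have r2 := (hR w' h6).2.2.2
          refine ⟨⟨(hG w hwG h5).1, (hG w' hw'G h6).1, ?_, ?_, ?_⟩, ?_, ?_⟩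
          · show |R w - f| ≤ 6
            have := abs_sub (R w) f
            linarith
          · show |R w' - f| ≤ 6
            have := abs_sub (R w') f
            linarith
          · show |((T1 w : ℤ) : ℝ) - (T1 w' : ℤ)| ≤ 2 * M
            have e1 := hT w h5
            have e2 := hT w' h6
            have e3 : |(T1 w - T1 w' : ℤ)| ≤ 2 * (M : ℤ) := by
              rw [abs_le]
              constructor <;> omega
            have e4 : |((T1 w - T1 w' : ℤ) : ℝ)| ≤ 2 * (M : ℝ) := by exact_mod_cast e3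
            simpa using e4
          · show |((T2 w : ℝ) - T2 w') * d2 + ((T1 w : ℝ) - T1 w') * d1| ≤ 64
            have e1 : ((T2 w : ℝ) - T2 w') * d2 + ((T1 w : ℝ) - T1 w') * d1 =
                ((x1 w : ℝ) - (y0 + T1 w' * d1 + T2 w' * d2)) -
                ((x1 w : ℝ) - (y0 + T1 w * d1 + T2 w * d2)) := by ring
            rw [e1]
            have := abs_sub ((x1 w : ℝ) - (y0 + T1 w' * d1 + T2 w' * d2))
              ((x1 w : ℝ) - (y0 + T1 w * d1 + T2 w * d2))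
            linarith
          · show |(T2 w : ℝ) * d2 * (R w - f) - T2 w' * d2 * (R w' - f)| ≤ 256
            have e1 : (T2 w : ℝ) * d2 * (R w - f) - T2 w' * d2 * (R w' - f) =
                (((x2 w : ℝ) - (n0 + T1 w' * d1 * f + T2 w' * d2 * R w')) -
                ((x2 w : ℝ) - (n0 + T1 w * d1 * f + T2 w * d2 * R w))) -
                f * (((x1 w : ℝ) - (y0 + T1 w' * d1 + T2 w' * d2)) -
                ((x1 w : ℝ) - (y0 + T1 w * d1 + T2 w * d2))) := by ring
            rw [e1]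
            have c1 := abs_sub ((x2 w : ℝ) - (n0 + T1 w' * d1 * f + T2 w' * d2 * R w'))
              ((x2 w : ℝ) - (n0 + T1 w * d1 * f + T2 w * d2 * R w))
            have c2 := abs_sub ((x1 w : ℝ) - (y0 + T1 w' * d1 + T2 w' * d2))
              ((x1 w : ℝ) - (y0 + T1 w * d1 + T2 w * d2))
            have c3 := abs_sub (((x2 w : ℝ) - (n0 + T1 w' * d1 * f + T2 w' * d2 * R w')) -
                ((x2 w : ℝ) - (n0 + T1 w * d1 * f + T2 w * d2 * R w)))
                (f * (((x1 w : ℝ) - (y0 + T1 w' * d1 + T2 w' * d2)) -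
                ((x1 w : ℝ) - (y0 + T1 w * d1 + T2 w * d2))))
            have c4 : |f * (((x1 w : ℝ) - (y0 + T1 w' * d1 + T2 w' * d2)) -
                ((x1 w : ℝ) - (y0 + T1 w * d1 + T2 w * d2)))| ≤ 3 * 64 := by
              rw [abs_mul]
              gcongr
              linarith
            linarith
        · rw [if_neg h4]
          split_ifs
          · exact mul_nonneg (hU0 w) (hU0 w')
          · exact le_rfl
      · rw [hE]
        have hl : Real.log N ≤ Real.log M := Real.log_le_log hN' (by exact_mod_cast hNM)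
        have hlN : 0 ≤ Real.log N := Real.log_nonneg (by exact_mod_cast hN)
        calc C * M / (α * δ ^ 3) * (4 * (1 + Real.log N)) / N ^ 3 =
            4 * C * M * (1 + Real.log N) / (α * δ ^ 3 * N ^ 3) := by
              field_simp
          _ ≤ _ := by gcongr
    · have h0 : (∑ w, ∑ w', if w ∈ G ∧ w' ∈ G ∧ (x1 w, x2 w) = (x1 w', x2 w') then
          Uw q T1 T2 R N w * Uw q T1 T2 R N w' else 0) = 0 := by
        refine Finset.sum_eq_zero fun w _ => Finset.sum_eq_zero fun w' _ => ?_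
        split_ifs with h4
        · have h5 : q w = 0 := by
            by_contra h6
            exact hGn ⟨w, h4.1, lt_of_le_of_ne (hq.nonneg w) (Ne.symm h6)⟩
          have : Uw q T1 T2 R N w = 0 := by unfold Uw; rw [h5]; ring
          rw [this, zero_mul]
        · rfl
      rw [h0]
      exact hEpos.le
  have h := lja_thm W (ℤ × ℤ) q (Uw q T1 T2 R N) (fun w => (x1 w, x2 w)) G E hq
    (Uw_nonneg hq.nonneg) (Uw_sum hq hN hS1 hS2) (fun w => Uw_pos hq.nonneg hN) hEpos (by convert hen)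
  rw [Uw_KL hq hN] at h
  have hlog : Real.log (1 / E) = 3 * Real.log N - Real.log M -
      Real.log (4 * C * (1 + Real.log M) / (α * δ ^ 3)) := by
    have e1 : 1 / E = N ^ 3 / M / (4 * C * (1 + Real.log M) / (α * δ ^ 3)) := by
      rw [hE]
      field_simp
    rw [e1, Real.log_div (by positivity) (by positivity), Real.log_div (by positivity) hM'.ne',
      Real.log_pow]
    push_cast
    ring
  rw [hlog] at h
  exact h

theorem ljc_thm : LJCStmt := by
  classical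
  obtain ⟨C, hC, hB⟩ := ljb_thm
  refine ⟨4 * C, by linarith, ?_⟩
  intro W Γ _ q c T1 T2 x1 x2 R f d1 d2 y0 n0 A1 A2 G M N α δ hq hN hNM hα hα1 hδ hδ1 hT hR hx hG
  set K := 3 * Real.log N - Real.log M - Real.log (4 * C * (1 + Real.log M) / (α * δ ^ 3)) with hK
  have key : ∀ z ∈ univ.image c, law q c z * (Pr (Pool.Agent.H49.Ent.cond q c z) G * K -
      2 * (2 * Real.log N - H (Pool.Agent.H49.Ent.cond q c z) T1 -
        H (Pool.Agent.H49.Ent.cond q c z) (fun v => ((T1 v, R v), T2 v)) +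
        H (Pool.Agent.H49.Ent.cond q c z) (fun v => (T1 v, R v))) - 3) ≤
      law q c z * H (Pool.Agent.H49.Ent.cond q c z) (fun w => (x1 w, x2 w)) := by
    intro z _
    rcases (law_nonneg hq.nonneg c z).eq_or_lt with h0 | h0
    · simp [← h0]
    · refine mul_le_mul_of_nonneg_left ?_ h0.le
      have hqz : IsLaw (Pool.Agent.H49.Ent.cond q c z) :=
        ⟨fun a => cond_nonneg hq.nonneg _ _ a, sum_cond q _ h0.ne'⟩
      have hpos := fun w => (cond_pos_iff hq.nonneg c z w)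
      refine ljc_core (f := f z) (d1 := d1 z) (d2 := d2 z) (y0 := y0 z) (n0 := n0 z)
        (A1 := A1 z) (A2 := A2 z) hC hB hqz hN hNM hα hα1 hδ hδ1 ?_ ?_ ?_ ?_
      · intro w hw
        obtain ⟨h1, h2⟩ := (hpos w).mp hw
        rw [← h2]
        exact hT w h1
      · intro w hw
        obtain ⟨h1, h2⟩ := (hpos w).mp hw
        rw [← h2]
        exact hR w h1
      · intro w hw
        obtain ⟨h1, h2⟩ := (hpos w).mp hw
        rw [← h2]
        exact hx w h1
      · intro w hwG hw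
        obtain ⟨h1, h2⟩ := (hpos w).mp hw
        rw [← h2]
        exact hG w hwG h1
  have hsum := Finset.sum_le_sum key
  rw [← CH_eq_sum hq.nonneg] at hsum
  have hPr : ∑ z ∈ univ.image c, law q c z * Pr (Pool.Agent.H49.Ent.cond q c z) G = Pr q G := by
    unfold Pr
    have e1 : ∀ z ∈ univ.image c, law q c z *
        law (Pool.Agent.H49.Ent.cond q c z) (fun w => w ∈ G) True =
        ∑ w, (if c w = z then (if (w ∈ G) = True then q w else 0) else 0) := by
      intro z _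
      rcases (law_nonneg hq.nonneg c z).eq_or_lt with h0 | h0
      · rw [← h0, zero_mul]
        symm
        refine Finset.sum_eq_zero fun w _ => ?_
        split_ifs with h1 h2
        · have h3 := le_law hq.nonneg c w
          rw [h1, ← h0] at h3
          exact le_antisymm h3 (hq.nonneg w)
        · rfl
        · rfl
      · unfold law
        rw [Finset.mul_sum]
        refine Finset.sum_congr rfl fun w _ => ?_
        unfold Pool.Agent.H49.Ent.cond
        by_cases h1 : c w = z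
        · by_cases h2 : (w ∈ G) = True
          · simp only [h1, h2, if_true]
            exact mul_div_cancel₀ _ h0.ne'
          · simp only [h1, h2, if_true, if_false, mul_zero]
        · simp only [h1, if_false, ite_self, mul_zero]
    rw [Finset.sum_congr rfl e1, Finset.sum_comm]
    unfold law
    refine Finset.sum_congr rfl fun w _ => ?_
    rw [Finset.sum_ite_eq, if_pos (Finset.mem_image_of_mem c (Finset.mem_univ w))]
    congr
  have hl : ∑ z ∈ univ.image c, law q c z = 1 := by rw [sum_law, hq.sum_one]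
  have hL : ∑ z ∈ univ.image c, law q c z * (Pr (Pool.Agent.H49.Ent.cond q c z) G * K -
      2 * (2 * Real.log N - H (Pool.Agent.H49.Ent.cond q c z) T1 -
        H (Pool.Agent.H49.Ent.cond q c z) (fun v => ((T1 v, R v), T2 v)) +
        H (Pool.Agent.H49.Ent.cond q c z) (fun v => (T1 v, R v))) - 3) =
      Pr q G * K - 2 * (2 * Real.log N - CH q T1 c - CH q (fun v => ((T1 v, R v), T2 v)) c +
        CH q (fun v => (T1 v, R v)) c) - 3 := by
    rw [CH_eq_sum hq.nonneg T1, CH_eq_sum hq.nonneg (fun v => ((T1 v, R v), T2 v)),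
      CH_eq_sum hq.nonneg (fun v => (T1 v, R v)), ← hPr]
    have e1 : 2 * Real.log N = ∑ z ∈ univ.image c, law q c z * (2 * Real.log N) := by
      rw [← Finset.sum_mul, hl, one_mul]
    have e3 : (3 : ℝ) = ∑ z ∈ univ.image c, law q c z * 3 := by
      rw [← Finset.sum_mul, hl, one_mul]
    conv_rhs => rw [e1, e3]
    rw [Finset.sum_mul, ← Finset.sum_sub_distrib, ← Finset.sum_sub_distrib,
      ← Finset.sum_add_distrib, Finset.mul_sum, ← Finset.sum_sub_distrib,
      ← Finset.sum_sub_distrib]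
    refine Finset.sum_congr rfl fun z _ => ?_
    ring
  rw [hL] at hsum
  have hch : CH q T2 (fun w => (T1 w, R w, c w)) =
      CH q (fun v => ((T1 v, R v), T2 v)) c - CH q (fun v => (T1 v, R v)) c := by
    unfold CH
    have e1 : H q (fun w => (T2 w, (T1 w, R w, c w))) =
        H q (fun w => (((T1 w, R w), T2 w), c w)) :=
      H_congr hq.nonneg (fun _ _ _ _ h => by
        simp only [Prod.mk.injEq] at h ⊢
        tauto) (fun _ _ _ _ h => by
        simp only [Prod.mk.injEq] at h ⊢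
        tauto)
    have e2 : H q (fun w => (T1 w, R w, c w)) = H q (fun w => ((T1 w, R w), c w)) :=
      H_congr hq.nonneg (fun _ _ _ _ h => by
        simp only [Prod.mk.injEq] at h ⊢
        tauto) (fun _ _ _ _ h => by
        simp only [Prod.mk.injEq] at h ⊢
        tauto)
    rw [e1, e2]
    ring
  rw [hch]
  linarith

end Pool.LJ
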