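import Pool.Agent.H86.LJ.LJC

/-!
# One mate step seen from a random base time, with an arbitrary displacement

The sample is `(S, T, a)`: base time, partner time and the displacement per unit of time. Nothing is
assumed about `a` except a lower bound for its size.
-/

set_option autoImplicit false

namespace Pool.LJ

open Finset Real
open Pool.Agent.H49.Ent Pool.Agent.H32.Dense Pool.STK Pool.KAF Pool.KAL

/-- Row MARG. -/
def MARGStmt : Prop :=
  ∃ C : ℝ, 1 ≤ C ∧ ∀ (W Γ : Type) [Fintype W] (q : W → ℝ) (c : W → Γ) (S T x : W → ℤ)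
    (a : W → ℝ) (x0 : Γ → ℤ → ℝ) (G : Set W) (M : ℕ) (α B : ℝ), IsLaw q → 1 ≤ M → 0 < α →
    α ≤ 1 → 1 ≤ B →
    (∀ w, 0 < q w → 0 ≤ S w ∧ S w < M ∧ 0 ≤ T w ∧ T w < M) →
    (∀ w, 0 < q w → |(x w : ℝ) - (x0 (c w) (S w) + ((S w : ℝ) - T w) * a w)| ≤ B) →
    (∀ w ∈ G, 0 < q w → α ≤ |a w|) →
    Pr q G * (2 * Real.log M - Real.log (C * B * (1 + Real.log M) / α)) - Real.log M -
      2 * ((Real.log M - CH q T c) + (Real.log M - CH q S (fun w => (T w, a w, c w)))) - 3 ≤
      CH q x (fun w => (S w, c w))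

/-- The relation between two samples in the event with the same base time and image. -/
def nearG (α B : ℝ) (M : ℕ) (z : ℤ × ℝ) (s : ℤ) (z' : ℤ × ℝ) (s' : ℤ) : Prop :=
  ((α ≤ |z.2| ∧ α ≤ |z'.2|) ∧ (0 ≤ z.1 ∧ z.1 < M) ∧ (0 ≤ z'.1 ∧ z'.1 < M)) ∧ s = s' ∧
    |((s : ℝ) - z.1) * z.2 - ((s : ℝ) - z'.1) * z'.2| ≤ 2 * B

open Classical in
theorem nearG_count {α B : ℝ} (hα : 0 < α) (hα1 : α ≤ 1) (hB : 1 ≤ B) {M : ℕ} (hM : 1 ≤ M)
    (z z' : ℤ × ℝ) :
    ∑ s ∈ Finset.Ico (0 : ℤ) (0 + M), ∑ s' ∈ Finset.Ico (0 : ℤ) (0 + M),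
      (if nearG α B M z s z' s' then (1 : ℝ) else 0) ≤
      9 * B * M / α * (1 / max |(z.1 : ℝ) - z'.1| 1) := by
  have hM' : (1 : ℝ) ≤ M := by exact_mod_cast hM
  have hM0 : (0 : ℝ) < M := by linarith
  have hB0 : 0 < B := by linarith
  have hmax : 0 < max |(z.1 : ℝ) - z'.1| 1 := lt_of_lt_of_le one_pos (le_max_right _ _)
  have hrhs : 0 ≤ 9 * B * M / α * (1 / max |(z.1 : ℝ) - z'.1| 1) := by positivity
  by_cases hz2' : (α ≤ |z.2| ∧ α ≤ |z'.2|) ∧ (0 ≤ z.1 ∧ z.1 < M) ∧ (0 ≤ z'.1 ∧ z'.1 < M)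
  swap
  · refine le_trans (le_of_eq ?_) hrhs
    refine Finset.sum_eq_zero fun s _ => Finset.sum_eq_zero fun s' _ => ?_
    rw [if_neg]
    exact fun h => hz2' h.1
  obtain ⟨hz2, hz, hz'⟩ := hz2'
  set F := (Finset.Ico (0 : ℤ) (0 + M)).filter fun s : ℤ =>
    |((s : ℝ) - z.1) * z.2 - ((s : ℝ) - z'.1) * z'.2| ≤ 2 * B with hF
  have h1 : ∑ s ∈ Finset.Ico (0 : ℤ) (0 + M), ∑ s' ∈ Finset.Ico (0 : ℤ) (0 + M),
      (if nearG α B M z s z' s' then (1 : ℝ) else 0) ≤ (F.card : ℝ) := by
    rw [hF, Finset.card_filter]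
    push_cast
    refine Finset.sum_le_sum fun s hs => ?_
    by_cases h2 : |((s : ℝ) - z.1) * z.2 - ((s : ℝ) - z'.1) * z'.2| ≤ 2 * B
    · rw [if_pos h2]
      calc ∑ s' ∈ Finset.Ico (0 : ℤ) (0 + M), (if nearG α B M z s z' s' then (1 : ℝ) else 0) ≤
          ∑ s' ∈ Finset.Ico (0 : ℤ) (0 + M), (if s = s' then (1 : ℝ) else 0) := by
            refine Finset.sum_le_sum fun s' _ => ?_
            by_cases h3 : s = s'
            · rw [if_pos h3]
              split_ifs <;> norm_num
            · rw [if_neg h3, if_neg]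
              exact fun h => h3 h.2.1
        _ ≤ 1 := by
            rw [Finset.sum_ite_eq]
            split_ifs <;> norm_num
    · rw [if_neg h2]
      refine le_of_eq (Finset.sum_eq_zero fun s' _ => ?_)
      rw [if_neg]
      exact fun h => h2 h.2.2
  refine h1.trans ?_
  have hcardM : (F.card : ℝ) ≤ M := by
    have h2 : F.card ≤ (Finset.Ico (0 : ℤ) (0 + M)).card := Finset.card_filter_le _ _
    rw [Int.card_Ico] at h2
    have h3 : (0 + (M : ℤ) - 0).toNat = M := by omega
    rw [h3] at h2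
    exact_mod_cast h2
  by_cases hT : z.1 = z'.1
  · rw [hT, sub_self, abs_zero, max_eq_right zero_le_one]
    refine hcardM.trans ?_
    rw [one_div_one, mul_one, le_div_iff₀ hα]
    nlinarith
  · have hD : (1 : ℝ) ≤ |(z.1 : ℝ) - z'.1| := by
      have : 1 ≤ |z.1 - z'.1| := Int.one_le_abs (sub_ne_zero.mpr hT)
      exact_mod_cast this
    rw [max_eq_left hD]
    have hD0 : 0 < |(z.1 : ℝ) - z'.1| := by linarith
    have hDM : |(z.1 : ℝ) - z'.1| ≤ M := by
      have h2 : |z.1 - z'.1| ≤ (M : ℤ) := by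
        rw [abs_le]
        constructor <;> omega
      exact_mod_cast h2
    set D := |(z.1 : ℝ) - z'.1| with hDdef
    -- value at `s = z.1`
    have hval : α * D ≤ |((z.1 : ℝ) - z'.1) * z'.2| := by
      rw [abs_mul, mul_comm]
      gcongr
      exact hz2.2
    have hphi : ∀ s : ℤ, ((s : ℝ) - z.1) * z.2 - ((s : ℝ) - z'.1) * z'.2 =
        ((s : ℝ) - z.1) * (z.2 - z'.2) - ((z.1 : ℝ) - z'.1) * z'.2 := fun s => by ring
    rcases le_or_gt (α * D / 2) (M * |z.2 - z'.2|) with h2 | h2
    · have hsl : 0 < |z.2 - z'.2| := by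
        by_contra h3
        have h4 : |z.2 - z'.2| = 0 := le_antisymm (not_lt.mp h3) (abs_nonneg _)
        rw [h4, mul_zero] at h2
        have : 0 < α * D / 2 := by positivity
        linarith
      have hsl' : z.2 - z'.2 ≠ 0 := abs_pos.mp hsl
      have h3 := card_closeZ ((z.1 : ℝ) + ((z.1 : ℝ) - z'.1) * z'.2 / (z.2 - z'.2))
        (2 * B / |z.2 - z'.2|) (by positivity) F (fun s hs => by
          have h4 := (Finset.mem_filter.mp hs).2
          rw [hphi] at h4
          have h5 : (s : ℝ) - ((z.1 : ℝ) + ((z.1 : ℝ) - z'.1) * z'.2 / (z.2 - z'.2)) =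
              (((s : ℝ) - z.1) * (z.2 - z'.2) - ((z.1 : ℝ) - z'.1) * z'.2) / (z.2 - z'.2) := by
            field_simp
            ring
          rw [h5, abs_div]
          gcongr)
      refine h3.trans ?_
      have h4 : 2 * B / |z.2 - z'.2| ≤ 4 * B * M / (α * D) := by
        rw [div_le_div_iff₀ hsl (by positivity)]
        nlinarith
      have h5 : (1 : ℝ) ≤ B * M / (α * D) := by
        rw [le_div_iff₀ (by positivity)]
        calc 1 * (α * D) ≤ 1 * (1 * M) := by gcongr
          _ ≤ B * M := by nlinarith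
      have h6 : 9 * B * M / α * (1 / D) = 2 * (4 * B * M / (α * D)) + B * M / (α * D) := by
        field_simp
        ring
      rw [h6]
      linarith
    · rcases Finset.eq_empty_or_nonempty F with h3 | ⟨s, hs⟩
      · rw [h3, Finset.card_empty, Nat.cast_zero]
        positivity
      · have h4 := (Finset.mem_filter.mp hs).2
        rw [hphi] at h4
        have hsM := Finset.mem_Ico.mp (Finset.mem_filter.mp hs).1
        have h5 : |((s : ℝ) - z.1) * (z.2 - z'.2)| ≤ α * D / 2 := by
          rw [abs_mul]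
          have h6 : |(s : ℝ) - z.1| ≤ M := by
            have h7 : |s - z.1| ≤ (M : ℤ) := by
              rw [abs_le]
              constructor <;> omega
            exact_mod_cast h7
          calc |(s : ℝ) - z.1| * |z.2 - z'.2| ≤ M * |z.2 - z'.2| := by gcongr
            _ ≤ _ := h2.le
        have h6 : α * D / 2 ≤ 2 * B := by
          have h7 := abs_sub (((s : ℝ) - z.1) * (z.2 - z'.2))
            (((s : ℝ) - z.1) * (z.2 - z'.2) - ((z.1 : ℝ) - z'.1) * z'.2)
          rw [sub_sub_cancel] at h7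
          linarith
        refine hcardM.trans ?_
        have h7 : 9 * B * M / α * (1 / D) = M * (9 * B / (α * D)) := by
          field_simp
        rw [h7]
        have h8 : (1 : ℝ) ≤ 9 * B / (α * D) := by
          rw [le_div_iff₀ (by positivity)]
          linarith
        nlinarith

open Classical in
theorem marg_core {W : Type} [Fintype W] {q : W → ℝ} {S T x : W → ℤ} {a : W → ℝ} {x0 : ℤ → ℝ}
    {G : Set W} {M : ℕ} {α B : ℝ} (hq : IsLaw q) (hM : 1 ≤ M) (hα : 0 < α) (hα1 : α ≤ 1)
    (hB : 1 ≤ B) (hT : ∀ w, 0 < q w → 0 ≤ S w ∧ S w < M ∧ 0 ≤ T w ∧ T w < M)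
    (hx : ∀ w, 0 < q w → |(x w : ℝ) - (x0 (S w) + ((S w : ℝ) - T w) * a w)| ≤ B)
    (hG : ∀ w ∈ G, 0 < q w → α ≤ |a w|) :
    Pr q G * (2 * Real.log M - Real.log (36 * B * (1 + Real.log M) / α)) -
      2 * (2 * Real.log M - H q T - H q (fun v => ((T v, a v), S v)) +
        H q (fun v => (T v, a v))) - 3 ≤ H q (fun w => (S w, x w)) := by
  have hM0 : (0 : ℝ) < M := by exact_mod_cast hM
  have hB0 : 0 < B := by linarith
  have hlM : 0 ≤ Real.log M := Real.log_nonneg (by exact_mod_cast hM)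
  set E : ℝ := 36 * B * (1 + Real.log M) / (α * M ^ 2) with hE
  have hEpos : 0 < E := by positivity
  have hS1 : ∀ w, 0 < q w → T w ∈ Finset.Ico (0 : ℤ) (0 + (M : ℤ)) := fun w h =>
    Finset.mem_Ico.mpr ⟨(hT w h).2.2.1, by simpa using (hT w h).2.2.2⟩
  have hS2 : ∀ w, 0 < q w → S w ∈ Finset.Ico (0 : ℤ) (0 + (M : ℤ)) := fun w h =>
    Finset.mem_Ico.mpr ⟨(hT w h).1, by simpa using (hT w h).2.1⟩
  have hen : (∑ w, ∑ w', if w ∈ G ∧ w' ∈ G ∧ (S w, x w) = (S w', x w') then
      Uw q T S a M w * Uw q T S a M w' else 0) ≤ E := by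
    have h3 := Uw_energy (R := a) hq hM hS1 hS2 (B := 9 * B * M / α) (by positivity)
      (nearG α B M) (fun z z' => nearG_count hα hα1 hB hM z z')
    refine (Finset.sum_le_sum fun w _ => Finset.sum_le_sum fun w' _ => ?_).trans (h3.trans ?_)
    · have hU0 := Uw_nonneg (T1 := T) (T2 := S) (R := a) (N := M) hq.nonneg
      by_cases h4 : w ∈ G ∧ w' ∈ G ∧ (S w, x w) = (S w', x w')
      · rw [if_pos h4]
        obtain ⟨hwG, hw'G, hxx⟩ := h4
        rcases (hq.nonneg w).eq_or_lt with h5 | h5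
        · have : Uw q T S a M w = 0 := by unfold Uw; rw [← h5]; ring
          rw [this]
          split_ifs <;> simp
        rcases (hq.nonneg w').eq_or_lt with h6 | h6
        · have : Uw q T S a M w' = 0 := by unfold Uw; rw [← h6]; ring
          rw [this]
          split_ifs <;> simp
        rw [if_pos]
        obtain ⟨hs1, hx1⟩ := Prod.mk.inj hxx
        have a1 := hx w h5
        have b1 := hx w' h6
        rw [← hx1, ← hs1] at b1
        have t1 := hT w h5
        have t2 := hT w' h6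
        refine ⟨⟨⟨hG w hwG h5, hG w' hw'G h6⟩, ⟨t1.2.2.1, t1.2.2.2⟩, ⟨t2.2.2.1, t2.2.2.2⟩⟩,
          hs1, ?_⟩
        show |((S w : ℝ) - T w) * a w - ((S w : ℝ) - T w') * a w'| ≤ 2 * B
        have e1 : ((S w : ℝ) - T w) * a w - ((S w : ℝ) - T w') * a w' =
            ((x w : ℝ) - (x0 (S w) + ((S w : ℝ) - T w') * a w')) -
            ((x w : ℝ) - (x0 (S w) + ((S w : ℝ) - T w) * a w)) := by ring
        rw [e1]
        have := abs_sub ((x w : ℝ) - (x0 (S w) + ((S w : ℝ) - T w') * a w'))
          ((x w : ℝ) - (x0 (S w) + ((S w : ℝ) - T w) * a w))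
        linarith
      · rw [if_neg h4]
        split_ifs
        · exact mul_nonneg (hU0 w) (hU0 w')
        · exact le_rfl
    · rw [hE]
      refine le_of_eq ?_
      field_simp
      ring
  have h := lja_thm W (ℤ × ℤ) q (Uw q T S a M) (fun w => (S w, x w)) G E hq
    (Uw_nonneg hq.nonneg) (Uw_sum hq hM hS1 hS2) (fun w => Uw_pos hq.nonneg hM) hEpos
    (by convert hen)
  rw [Uw_KL hq hM] at h
  have hlog : Real.log (1 / E) = 2 * Real.log M -
      Real.log (36 * B * (1 + Real.log M) / α) := by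
    have e1 : 1 / E = M ^ 2 / (36 * B * (1 + Real.log M) / α) := by
      rw [hE]
      field_simp
    rw [e1, Real.log_div (by positivity) (by positivity), Real.log_pow]
    push_cast
    ring
  rw [hlog] at h
  exact h

/-- Averages of conditional events. -/
theorem sum_Pr_cond {W Γ : Type} [Fintype W] [DecidableEq Γ] {q : W → ℝ} (hq : ∀ w, 0 ≤ q w)
    (c : W → Γ) (G : Set W) :
    ∑ z ∈ univ.image c, law q c z * Pr (Pool.Agent.H49.Ent.cond q c z) G = Pr q G := by
  classical
  unfold Pr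
  have e1 : ∀ z ∈ univ.image c, law q c z *
      law (Pool.Agent.H49.Ent.cond q c z) (fun w => w ∈ G) True =
      ∑ w, (if c w = z then (if (w ∈ G) = True then q w else 0) else 0) := by
    intro z _
    rcases (law_nonneg hq c z).eq_or_lt with h0 | h0
    · rw [← h0, zero_mul]
      symm
      refine Finset.sum_eq_zero fun w _ => ?_
      split_ifs with h1 h2
      · have h3 := le_law hq c w
        rw [h1, ← h0] at h3
        exact le_antisymm h3 (hq w)
      · rfl
      · rfl
    · unfold law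
      rw [Finset.mul_sum]
      refine Finset.sum_congr rfl fun w _ => ?_
      unfold Pool.Agent.H49.Ent.cond
      by_cases h1 : c w = z
      · by_cases h2 : (w ∈ G) = True
        · simp only [h1, h2, if_true]
          exact mul_div_cancel₀ _ h0.ne'
        · simp only [h1, h2, if_true, if_false, mul_zero]
      · simp only [h1, if_false, ite_self, mul_zero]
  rw [Finset.sum_congr rfl e1, Finset.sum_comm]
  unfold law
  refine Finset.sum_congr rfl fun w _ => ?_
  rw [Finset.sum_ite_eq, if_pos (Finset.mem_image_of_mem c (Finset.mem_univ w))]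
  congr

theorem marg_thm : MARGStmt := by
  classical
  refine ⟨36, by norm_num, ?_⟩
  intro W Γ _ q c S T x a x0 G M α B hq hM hα hα1 hB hT hx hG
  have hlM : 0 ≤ Real.log M := Real.log_nonneg (by exact_mod_cast hM)
  set K := 2 * Real.log M - Real.log (36 * B * (1 + Real.log M) / α) with hK
  have key : ∀ z ∈ univ.image c, law q c z * (Pr (Pool.Agent.H49.Ent.cond q c z) G * K -
      2 * (2 * Real.log M - H (Pool.Agent.H49.Ent.cond q c z) T -
        H (Pool.Agent.H49.Ent.cond q c z) (fun v => ((T v, a v), S v)) +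
        H (Pool.Agent.H49.Ent.cond q c z) (fun v => (T v, a v))) - 3) ≤
      law q c z * H (Pool.Agent.H49.Ent.cond q c z) (fun w => (S w, x w)) := by
    intro z _
    rcases (law_nonneg hq.nonneg c z).eq_or_lt with h0 | h0
    · simp [← h0]
    · refine mul_le_mul_of_nonneg_left ?_ h0.le
      have hqz : IsLaw (Pool.Agent.H49.Ent.cond q c z) :=
        ⟨fun a => cond_nonneg hq.nonneg _ _ a, sum_cond q _ h0.ne'⟩
      have hpos := fun w => (cond_pos_iff hq.nonneg c z w)
      refine marg_core (x0 := x0 z) hqz hM hα hα1 hB ?_ ?_ ?_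
      · intro w hw
        exact hT w ((hpos w).mp hw).1
      · intro w hw
        obtain ⟨h1, h2⟩ := (hpos w).mp hw
        rw [← h2]
        exact hx w h1
      · intro w hwG hw
        exact hG w hwG ((hpos w).mp hw).1
  have hsum := Finset.sum_le_sum key
  rw [← CH_eq_sum hq.nonneg] at hsum
  have hl : ∑ z ∈ univ.image c, law q c z = 1 := by rw [sum_law, hq.sum_one]
  have hL : ∑ z ∈ univ.image c, law q c z * (Pr (Pool.Agent.H49.Ent.cond q c z) G * K -
      2 * (2 * Real.log M - H (Pool.Agent.H49.Ent.cond q c z) T -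
        H (Pool.Agent.H49.Ent.cond q c z) (fun v => ((T v, a v), S v)) +
        H (Pool.Agent.H49.Ent.cond q c z) (fun v => (T v, a v))) - 3) =
      Pr q G * K - 2 * (2 * Real.log M - CH q T c - CH q (fun v => ((T v, a v), S v)) c +
        CH q (fun v => (T v, a v)) c) - 3 := by
    rw [CH_eq_sum hq.nonneg T, CH_eq_sum hq.nonneg (fun v => ((T v, a v), S v)),
      CH_eq_sum hq.nonneg (fun v => (T v, a v)), ← sum_Pr_cond hq.nonneg c G]
    have e1 : 2 * Real.log M = ∑ z ∈ univ.image c, law q c z * (2 * Real.log M) := by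
      rw [← Finset.sum_mul, hl, one_mul]
    have e3 : (3 : ℝ) = ∑ z ∈ univ.image c, law q c z * 3 := by
      rw [← Finset.sum_mul, hl, one_mul]
    conv_rhs => rw [e1, e3]
    rw [Finset.sum_mul, ← Finset.sum_sub_distrib, ← Finset.sum_sub_distrib,
      ← Finset.sum_add_distrib, Finset.mul_sum, ← Finset.sum_sub_distrib,
      ← Finset.sum_sub_distrib]
    refine Finset.sum_congr rfl fun z _ => ?_
    ring
  rw [hL] at hsum
  have hch : CH q S (fun w => (T w, a w, c w)) =
      CH q (fun v => ((T v, a v), S v)) c - CH q (fun v => (T v, a v)) c := by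
    unfold CH
    have e1 : H q (fun w => (S w, (T w, a w, c w))) =
        H q (fun w => (((T w, a w), S w), c w)) :=
      H_congr hq.nonneg (fun _ _ _ _ h => by
        simp only [Prod.mk.injEq] at h ⊢
        tauto) (fun _ _ _ _ h => by
        simp only [Prod.mk.injEq] at h ⊢
        tauto)
    have e2 : H q (fun w => (T w, a w, c w)) = H q (fun w => ((T w, a w), c w)) :=
      H_congr hq.nonneg (fun _ _ _ _ h => by
        simp only [Prod.mk.injEq] at h ⊢
        tauto) (fun _ _ _ _ h => by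
        simp only [Prod.mk.injEq] at h ⊢
        tauto)
    rw [e1, e2]
    ring
  -- split off the base time
  have hsp : CH q (fun w => (S w, x w)) c = CH q x (fun w => (S w, c w)) + CH q S c := by
    unfold CH
    have e1 : H q (fun w => ((S w, x w), c w)) = H q (fun w => (x w, (S w, c w))) :=
      H_congr hq.nonneg (fun _ _ _ _ h => by
        simp only [Prod.mk.injEq] at h ⊢
        tauto) (fun _ _ _ _ h => by
        simp only [Prod.mk.injEq] at h ⊢
        tauto)
    rw [e1]
    ring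
  have hSM : CH q S c ≤ Real.log M := by
    rw [CH_eq_sum hq.nonneg]
    have h1 : ∀ z ∈ univ.image c, law q c z * H (Pool.Agent.H49.Ent.cond q c z) S ≤
        law q c z * Real.log M := by
      intro z _
      rcases (law_nonneg hq.nonneg c z).eq_or_lt with h0 | h0
      · simp [← h0]
      · refine mul_le_mul_of_nonneg_left ?_ h0.le
        have h2 := H_le_log_card (fun w => cond_nonneg hq.nonneg c z w) (sum_cond q c h0.ne') S
          (F := Finset.Ico (0 : ℤ) M) (fun w hw => by
            have h3 := hT w ((cond_pos_iff hq.nonneg c z w).mp hw).1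
            exact Finset.mem_Ico.mpr ⟨h3.1, h3.2.1⟩)
        rw [Int.card_Ico, sub_zero, Int.toNat_natCast] at h2
        exact h2
    refine (Finset.sum_le_sum h1).trans (le_of_eq ?_)
    rw [← Finset.sum_mul, hl, one_mul]
  rw [hch]
  rw [hsp] at hsum
  linarith

end Pool.LJ
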